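import Pool.Agent.H16.TQ.Box

/-! Averages over the boxes and the fibres: continuity in time, exchange with the time integral. -/

set_option autoImplicit false

open Set Filter Topology MeasureTheory
open scoped ContDiff InnerProductSpace

namespace Pool.Agent.H16.TQ

open Pool.Agent.H16 Pool.Agent.H87.NS Pool.Agent.H72.CC Pool.Agent.H16.TU Pool.Agent.H94.EP Pool.Agent.H42.TQ Pool.Agent.H37.EP

variable {T : ℝ} {L : ℝ}

/-- Jointly continuous, locally bounded in time, zero for `1 / 8 ≤ sq2 q`. -/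
structure Ib (T : ℝ) (I : ℝ → ℝ × ℝ → ℝ → ℝ) : Prop where
  ct : ContinuousOn (fun y : ℝ × (ℝ × ℝ) × ℝ => I y.1 y.2.1 y.2.2) {y | y.2.2 ∈ Ico 0 T}
  bd : ∀ b' < T, ∃ K : ℝ, 0 ≤ K ∧ ∀ t ∈ Icc 0 b', ∀ b q, |I b q t| ≤ K
  z : ∀ b q t, 1 / 8 ≤ sq2 q → I b q t = 0

/-- The average. -/
noncomputable def av (w : ℝ → ℝ) (I : ℝ → ℝ × ℝ → ℝ → ℝ) (t : ℝ) : ℝ := ∫ b, w b * ∫ q : ℝ × ℝ, I b q t

/-- The square. -/
def Sq : Set (ℝ × ℝ) := Icc (-1 : ℝ) 1 ×ˢ Icc (-1 : ℝ) 1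

theorem Sq_mem {q : ℝ × ℝ} (h : sq2 q < 1 / 8) : q ∈ Sq := by
  unfold sq2 at h
  refine ⟨⟨?_, ?_⟩, ⟨?_, ?_⟩⟩ <;> nlinarith [sq_nonneg q.1, sq_nonneg q.2]

theorem Sq_i : Integrable (Sq.indicator fun _ => (1 : ℝ)) := by
  have hm : MeasurableSet Sq := measurableSet_Icc.prod measurableSet_Icc
  refine (integrable_indicator_iff hm).2 (integrableOn_const ?_)
  exact (isCompact_Icc.prod isCompact_Icc).measure_lt_top.ne

/-- The dominating function. -/
noncomputable def gw (w : ℝ → ℝ) (z : ℝ × (ℝ × ℝ)) : ℝ := w z.1 * Sq.indicator (fun _ => (1 : ℝ)) z.2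

theorem gw_i {w : ℝ → ℝ} (hw : Integrable w) : Integrable (gw w) := hw.mul_prod Sq_i

variable {w : ℝ → ℝ} {I I' : ℝ → ℝ × ℝ → ℝ → ℝ}

theorem av_b (hw0 : ∀ b, 0 ≤ w b) (h : Ib T I) {K t : ℝ} (hK0 : 0 ≤ K) (hK : ∀ b q, |I b q t| ≤ K) (z : ℝ × (ℝ × ℝ)) :
    |w z.1 * I z.1 z.2 t| ≤ K * gw w z := by
  unfold gw
  rw [abs_mul, abs_of_nonneg (hw0 _)]
  rcases lt_or_ge (sq2 z.2) (1 / 8) with hz | hz
  · rw [indicator_of_mem (Sq_mem hz)]
    have := mul_le_mul_of_nonneg_left (hK z.1 z.2) (hw0 z.1)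
    linarith
  · rw [h.z _ _ _ hz, abs_zero, mul_zero]
    exact mul_nonneg hK0 (mul_nonneg (hw0 _) (indicator_nonneg (fun _ _ => zero_le_one) _))

theorem av_ms (hwc : Continuous w) (h : Ib T I) {t : ℝ} (ht : t ∈ Ico 0 T) : Continuous (fun z : ℝ × (ℝ × ℝ) => w z.1 * I z.1 z.2 t) := by
  refine (hwc.comp continuous_fst).mul ?_
  rw [← continuousOn_univ]
  exact h.ct.comp (f := fun z : ℝ × (ℝ × ℝ) => (z.1, z.2, t)) (by fun_prop) fun _ _ => ht

theorem av_i (hwc : Continuous w) (hw0 : ∀ b, 0 ≤ w b) (hw : Integrable w) (h : Ib T I) {t : ℝ} (ht : t ∈ Ico 0 T) :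
    Integrable (fun z : ℝ × (ℝ × ℝ) => w z.1 * I z.1 z.2 t) := by
  obtain ⟨K, K0, hK⟩ := h.bd t ht.2
  refine Integrable.mono' ((gw_i hw).const_mul K) (av_ms hwc h ht).aestronglyMeasurable (Eventually.of_forall fun z => ?_)
  exact av_b hw0 h K0 (hK t ⟨ht.1, le_rfl⟩) z

theorem av_eq (hwc : Continuous w) (hw0 : ∀ b, 0 ≤ w b) (hw : Integrable w) (h : Ib T I) {t : ℝ} (ht : t ∈ Ico 0 T) :
    av w I t = ∫ z : ℝ × (ℝ × ℝ), w z.1 * I z.1 z.2 t := by
  have h1 := integral_prod (μ := (volume : Measure ℝ)) (ν := (volume : Measure (ℝ × ℝ))) _ (av_i hwc hw0 hw h ht)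
  rw [Measure.volume_eq_prod, h1]
  unfold av
  refine integral_congr_ae (Eventually.of_forall fun b => ?_)
  simp only [integral_const_mul]

theorem av_ct (hwc : Continuous w) (hw0 : ∀ b, 0 ≤ w b) (hw : Integrable w) (h : Ib T I) : ContinuousOn (av w I) (Ico 0 T) := by
  have h1 : ContinuousOn (fun t => ∫ z : ℝ × (ℝ × ℝ), w z.1 * I z.1 z.2 t) (Ico 0 T) := by
    intro t ht
    have ht1 : t < (t + T) / 2 := by linarith [ht.2]
    obtain ⟨K, K0, hK⟩ := h.bd ((t + T) / 2) (by linarith [ht.2])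
    refine continuousWithinAt_of_dominated (bound := fun z => K * gw w z) ?_ ?_ ((gw_i hw).const_mul K) (Eventually.of_forall fun z => ?_)
    · filter_upwards [self_mem_nhdsWithin] with s hs
      exact (av_ms hwc h hs).aestronglyMeasurable
    · have e2 : ∀ᶠ s : ℝ in 𝓝[Ico 0 T] t, s < (t + T) / 2 := (gt_mem_nhds ht1).filter_mono nhdsWithin_le_nhds
      filter_upwards [e2, self_mem_nhdsWithin] with s h2 h3
      exact Eventually.of_forall fun z => av_b hw0 h K0 (hK s ⟨h3.1, h2.le⟩) z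
    · refine ContinuousWithinAt.mul continuousWithinAt_const ?_
      exact (h.ct.comp (f := fun s : ℝ => (z.1, z.2, s)) (s := Ico 0 T) (by fun_prop) fun _ hs => hs) t ht
  exact h1.congr fun t ht => av_eq hwc hw0 hw h ht

theorem av_ftc (hwc : Continuous w) (hw0 : ∀ b, 0 ≤ w b) (hw : Integrable w) (h : Ib T I) (h' : Ib T I') {t₁ t₂ : ℝ} (h1 : 0 ≤ t₁)
    (h12 : t₁ ≤ t₂) (h2 : t₂ < T) (he : ∀ b q, I b q t₂ = I b q t₁ + ∫ s in t₁..t₂, I' b q s) :
    av w I t₂ = av w I t₁ + ∫ s in t₁..t₂, av w I' s := by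
  have m1 : t₁ ∈ Ico 0 T := ⟨h1, lt_of_le_of_lt h12 h2⟩
  have m2 : t₂ ∈ Ico 0 T := ⟨h1.trans h12, h2⟩
  obtain ⟨K, K0, hK⟩ := h'.bd t₂ h2
  have hsub : Ioc t₁ t₂ ⊆ Ico 0 T := fun s hs => ⟨h1.trans hs.1.le, lt_of_le_of_lt hs.2 h2⟩
  have hint : Integrable (Function.uncurry fun (z : ℝ × (ℝ × ℝ)) (s : ℝ) => w z.1 * I' z.1 z.2 s)
      ((volume : Measure (ℝ × (ℝ × ℝ))).prod (volume.restrict (Ioc t₁ t₂))) := by
    have hg : Integrable (fun y : (ℝ × (ℝ × ℝ)) × ℝ => (K * gw w y.1) * (1 : ℝ))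
        ((volume : Measure (ℝ × (ℝ × ℝ))).prod (volume.restrict (Ioc t₁ t₂))) :=
      ((gw_i hw).const_mul K).mul_prod (integrable_const _)
    have hme : (volume : Measure (ℝ × (ℝ × ℝ))).prod (volume.restrict (Ioc t₁ t₂)) =
        ((volume : Measure (ℝ × (ℝ × ℝ))).prod volume).restrict (univ ×ˢ Ioc t₁ t₂) := by
      rw [← Measure.prod_restrict, Measure.restrict_univ]
    have hms : MeasurableSet ((univ : Set (ℝ × (ℝ × ℝ))) ×ˢ Ioc t₁ t₂) := MeasurableSet.univ.prod measurableSet_Ioc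
    refine Integrable.mono' hg ?_ ?_
    · rw [hme]
      refine ContinuousOn.aestronglyMeasurable ?_ hms
      refine ContinuousOn.mul (hwc.comp (by fun_prop : Continuous fun y : (ℝ × (ℝ × ℝ)) × ℝ => y.1.1)).continuousOn ?_
      exact h'.ct.comp (f := fun y : (ℝ × (ℝ × ℝ)) × ℝ => (y.1.1, y.1.2, y.2)) (by fun_prop) fun y hy => hsub hy.2
    · rw [hme]
      filter_upwards [ae_restrict_mem hms] with y hy
      rw [mul_one]
      exact av_b hw0 h' K0 (hK y.2 ⟨h1.trans hy.2.1.le, hy.2.2⟩) y.1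
  have e1 : (∫ z : ℝ × (ℝ × ℝ), w z.1 * ∫ s in t₁..t₂, I' z.1 z.2 s) = ∫ s in t₁..t₂, av w I' s := by
    rw [intervalIntegral.integral_of_le h12]
    have := integral_integral_swap hint
    calc (∫ z : ℝ × (ℝ × ℝ), w z.1 * ∫ s in t₁..t₂, I' z.1 z.2 s)
        = ∫ z : ℝ × (ℝ × ℝ), ∫ s in Ioc t₁ t₂, w z.1 * I' z.1 z.2 s := by
          refine integral_congr_ae (Eventually.of_forall fun z => ?_)
          simp only [intervalIntegral.integral_of_le h12, integral_const_mul]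
      _ = ∫ s in Ioc t₁ t₂, ∫ z : ℝ × (ℝ × ℝ), w z.1 * I' z.1 z.2 s := this
      _ = ∫ s in Ioc t₁ t₂, av w I' s := by
          refine setIntegral_congr_fun measurableSet_Ioc fun s hs => ?_
          exact (av_eq hwc hw0 hw h' (hsub hs)).symm
  rw [← e1, av_eq hwc hw0 hw h m1, av_eq hwc hw0 hw h m2, ← integral_add (av_i hwc hw0 hw h m1)]
  · refine integral_congr_ae (Eventually.of_forall fun z => ?_)
    simp only [he]; ring
  · have h3 := hint.integral_prod_left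
    refine h3.congr (Eventually.of_forall fun z => ?_)
    simp only [Function.uncurry_apply_pair, intervalIntegral.integral_of_le h12, integral_const_mul]

end Pool.Agent.H16.TQ
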