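import Pool.Agent.H42.TQ.Defs

/-! The density `rho m0 μ / μ` on `[0, 1]`: nonnegative, bounded, integral at most one. -/

set_option autoImplicit false

open Set Filter Topology MeasureTheory
open scoped ContDiff InnerProductSpace

namespace Pool.Agent.H16.TQ

open Pool.Agent.H16 Pool.Agent.H87.NS Pool.Agent.H72.CC Pool.Agent.H16.TU Pool.Agent.H94.EP Pool.Agent.H42.TQ

variable {m0 : ℝ}

theorem log_inv_nn (h0 : 0 < m0) (h1 : m0 ≤ 1) : 0 ≤ Real.log (1 / m0) :=
  Real.log_nonneg (by rw [le_div_iff₀ h0]; linarith)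

theorem rho_nn (h0 : 0 < m0) (h1 : m0 ≤ 1) {μ : ℝ} (hμ : 0 ≤ μ) : 0 ≤ rho m0 μ := by
  unfold rho
  refine div_nonneg (sub_nonneg.2 (pow_le_pow_left₀ (le_max_right _ _) (max_le_max_right _ ?_) 3)) (log_inv_nn h0 h1)
  have : μ ≤ μ / m0 := by rw [le_div_iff₀ h0]; nlinarith
  linarith

theorem rho_ub (h0 : 0 < m0) (h1 : m0 ≤ 1) {μ : ℝ} (hμ : 0 < μ) : rho m0 μ / μ ≤ 3 / m0 / Real.log (1 / m0) := by
  unfold rho
  rw [div_div, mul_comm, ← div_div]
  refine div_le_div_of_nonneg_right ?_ (log_inv_nn h0 h1)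
  rw [div_le_iff₀ hμ]
  have h2 : max (1 - μ) 0 ^ 3 ≤ 1 := pow_le_one₀ (le_max_right _ _) (max_le (by linarith) (by norm_num))
  have h3 : 1 - 3 / m0 * μ ≤ max (1 - μ / m0) 0 ^ 3 := by
    have e : 3 / m0 * μ = 3 * (μ / m0) := by ring
    rw [e]
    have hx : 0 < μ / m0 := by positivity
    rcases le_or_gt (μ / m0) 1 with h | h
    · rw [max_eq_left (by linarith)]
      nlinarith [mul_nonneg (mul_nonneg hx.le hx.le) (by linarith : (0 : ℝ) ≤ 1 - μ / m0), mul_nonneg hx.le hx.le]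
    · rw [max_eq_right (by linarith)]; simp only [ne_eq, OfNat.ofNat_ne_zero, not_false_eq_true, zero_pow]; linarith
  linarith

theorem rho_cts : Continuous (rho m0) := by
  unfold rho; fun_prop

theorem rho_ct : ContinuousOn (fun μ => rho m0 μ / μ) (Ioi 0) :=
  rho_cts.continuousOn.div continuousOn_id fun _ hx => (ne_of_gt hx)

theorem rho_nn' (h0 : 0 < m0) (h1 : m0 ≤ 1) {μ : ℝ} (hμ : 0 ≤ μ) : 0 ≤ rho m0 μ / μ := div_nonneg (rho_nn h0 h1 hμ) hμ

theorem rho_abs (h0 : 0 < m0) (h1 : m0 ≤ 1) {μ : ℝ} (hμ : 0 < μ) : |rho m0 μ / μ| ≤ 3 / m0 / Real.log (1 / m0) := by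
  rw [abs_of_nonneg (rho_nn' h0 h1 hμ.le)]; exact rho_ub h0 h1 hμ

theorem rho_ii (h0 : 0 < m0) (h1 : m0 ≤ 1) : IntervalIntegrable (fun μ => rho m0 μ / μ) volume 0 1 := by
  rw [intervalIntegrable_iff_integrableOn_Ioc_of_le zero_le_one]
  refine Integrable.mono' (g := fun _ => 3 / m0 / Real.log (1 / m0)) (integrable_const _) ?_ ?_
  · exact (rho_ct.mono Ioc_subset_Ioi_self).aestronglyMeasurable measurableSet_Ioc
  · filter_upwards [ae_restrict_mem measurableSet_Ioc] with μ hμ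
    exact rho_abs h0 h1 hμ.1

theorem rho_int (h0 : 0 < m0) (h1 : m0 ≤ 1) : ∫ μ in (0 : ℝ)..1, rho m0 μ / μ ≤ 1 := by
  rcases eq_or_lt_of_le h1 with rfl | h1'
  · have : (fun μ : ℝ => rho 1 μ / μ) = fun _ => 0 := by
      funext μ; simp [rho]
    rw [this]; simp
  have hl : 0 < Real.log (1 / m0) := Real.log_pos (by rw [lt_div_iff₀ h0]; linarith)
  set g : ℝ → ℝ := fun x => max (1 - x) 0 ^ 3 / x with hg
  have gc : ContinuousOn g (Ioi 0) := by
    refine ContinuousOn.div ?_ continuousOn_id fun x hx => (ne_of_gt hx)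
    exact (by fun_prop : Continuous fun x : ℝ => max (1 - x) 0 ^ 3).continuousOn
  have gi : ∀ a b : ℝ, 0 < a → 0 < b → IntervalIntegrable g volume a b := fun a b ha hb =>
    (gc.mono fun x hx => lt_of_lt_of_le (lt_min ha hb) hx.1).intervalIntegrable
  have key : ∀ ε ∈ Ioo 0 m0, ∫ μ in ε..1, rho m0 μ / μ ≤ 1 := by
    intro ε hε
    have e0 : 0 < ε := hε.1
    have e1 : ∫ μ in ε..1, g (μ / m0) = m0 • ∫ x in ε / m0..1 / m0, g x := intervalIntegral.integral_comp_div g h0.ne'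
    have e2 : (∫ μ in ε..1, rho m0 μ / μ) = (1 / Real.log (1 / m0)) * ((∫ μ in ε..1, g μ) - ∫ x in ε / m0..1 / m0, g x) := by
      have e3 : ∀ μ ∈ uIcc ε 1, rho m0 μ / μ = (1 / Real.log (1 / m0)) * (g μ - (1 / m0) * g (μ / m0)) := by
        intro μ hμ
        have hμ0 : 0 < μ := by
          rw [uIcc_of_le (by linarith [hε.2] : ε ≤ 1)] at hμ
          linarith [hμ.1]
        simp only [hg, rho]
        field_simp
      rw [intervalIntegral.integral_congr e3, intervalIntegral.integral_const_mul, intervalIntegral.integral_sub, intervalIntegral.integral_const_mul, e1]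
      · simp only [smul_eq_mul]; field_simp
      · exact gi _ _ e0 one_pos
      · refine IntervalIntegrable.const_mul ?_ _
        refine ContinuousOn.intervalIntegrable ?_
        refine gc.comp (by fun_prop) fun μ hμ => ?_
        rw [uIcc_of_le (by linarith [hε.2] : ε ≤ 1)] at hμ
        exact div_pos (by linarith [hμ.1]) h0
    have hem : 0 < ε / m0 := div_pos e0 h0
    have e4 : (∫ μ in ε..1, g μ) = (∫ μ in ε..ε / m0, g μ) + ∫ μ in ε / m0..1, g μ :=
      (intervalIntegral.integral_add_adjacent_intervals (gi _ _ e0 hem) (gi _ _ hem one_pos)).symm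
    have e5 : (∫ μ in ε / m0..1 / m0, g μ) = (∫ μ in ε / m0..1, g μ) + ∫ μ in (1:ℝ)..1 / m0, g μ :=
      (intervalIntegral.integral_add_adjacent_intervals (gi _ _ hem one_pos) (gi _ _ one_pos (by positivity))).symm
    have e6 : 0 ≤ ∫ μ in (1:ℝ)..1 / m0, g μ := by
      refine intervalIntegral.integral_nonneg (by rw [le_div_iff₀ h0]; linarith) fun x hx => ?_
      have : 0 ≤ x := by linarith [hx.1]
      simp only [hg]; positivity
    have e7 : ∫ μ in ε..ε / m0, g μ ≤ ∫ μ in ε..ε / m0, 1 / μ := by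
      refine intervalIntegral.integral_mono_on ?_ (gi _ _ e0 hem) ?_ fun x hx => ?_
      · rw [le_div_iff₀ h0]; nlinarith
      · refine ContinuousOn.intervalIntegrable ?_
        refine continuousOn_const.div continuousOn_id fun x hx => ?_
        have := lt_of_lt_of_le (lt_min e0 hem) hx.1
        exact ne_of_gt this
      · have hx0 : 0 < x := lt_of_lt_of_le e0 hx.1
        simp only [hg]
        refine div_le_div_of_nonneg_right ?_ hx0.le
        exact pow_le_one₀ (le_max_right _ _) (max_le (by linarith) (by norm_num))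
    have e8 : ∫ μ in ε..ε / m0, 1 / μ = Real.log (1 / m0) := by
      rw [integral_one_div_of_pos e0 hem]
      congr 1
      field_simp
    rw [e2, e4, e5, one_div, inv_mul_le_iff₀ hl]
    linarith
  have hc : ContinuousWithinAt (fun ε : ℝ => ∫ μ in ε..1, rho m0 μ / μ) (Icc 0 1) 0 := by
    have h3 := intervalIntegral.continuousOn_primitive_interval' (μ := volume) (f := fun μ => rho m0 μ / μ) (a := 1) (b₁ := 0) (b₂ := 1)
      (rho_ii h0 h1) (by simp)
    rw [uIcc_of_le (zero_le_one' ℝ)] at h3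
    have h4 := (h3 0 ⟨le_rfl, zero_le_one⟩).neg
    refine h4.congr (fun ε _ => ?_) ?_
    · exact intervalIntegral.integral_symm _ _
    · exact intervalIntegral.integral_symm _ _
  have hc2 : Tendsto (fun ε : ℝ => ∫ μ in ε..1, rho m0 μ / μ) (𝓝[Ioo 0 m0] 0) (𝓝 (∫ μ in (0:ℝ)..1, rho m0 μ / μ)) :=
    hc.mono_left (nhdsWithin_mono _ fun x hx => ⟨hx.1.le, (hx.2.trans h1').le⟩)
  have : (𝓝[Ioo 0 m0] (0:ℝ)).NeBot := left_nhdsWithin_Ioo_neBot h0
  exact le_of_tendsto hc2 (eventually_nhdsWithin_of_forall key)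

end Pool.Agent.H16.TQ
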