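import Pool.Agent.H16.TQ.Pf
import Pool.Agent.H16.TQ.Rho

/-! The averaged envelope on one fibre: estimates, derivative, continuity. -/

set_option autoImplicit false

open Set Filter Topology MeasureTheory
open scoped ContDiff InnerProductSpace

namespace Pool.Agent.H16.TQ

open Pool.Agent.H16 Pool.Agent.H87.NS Pool.Agent.H72.CC Pool.Agent.H16.TU Pool.Agent.H94.EP Pool.Agent.H42.TQ

variable {m r2 m0 : ℝ}

/-- Admissible parameters. -/
structure Pr (m r2 m0 : ℝ) : Prop where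
  m : 0 < m
  r : 0 < r2
  z : 0 < m0
  o : m0 ≤ 1

/-- The averaged envelope over `q`. -/
noncomputable def Ei (m r2 m0 : ℝ) (q : ℝ × ℝ) (f : Hz) : ℝ := ∫ μ in (0 : ℝ)..1, rho m0 μ / μ * ec (cmu m r2 μ q) f

/-- Its derivative at `f` in the direction `g`. -/
noncomputable def dEi (m r2 m0 : ℝ) (q : ℝ × ℝ) (f g : Hz) : ℝ := ∫ μ in (0 : ℝ)..1, rho m0 μ / μ * ⟪Pc (cmu m r2 μ q) f, g⟫_ℝ

theorem sq2_nn (q : ℝ × ℝ) : 0 ≤ sq2 q := by unfold sq2; positivity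

theorem cmu_pos (hp : Pr m r2 m0) {μ : ℝ} (hμ : 0 < μ) (q : ℝ × ℝ) : 0 < cmu m r2 μ q := by
  have h1 := hp.m
  have h2 := hp.r
  have h3 := sq2_nn q
  unfold cmu; positivity

theorem cmu_cont (hp : Pr m r2 m0) : Continuous (fun z : ℝ × (ℝ × ℝ) => cmu m r2 z.1 z.2) := by
  have h2 := hp.r
  have h4 : ∀ z : ℝ × (ℝ × ℝ), sq2 z.2 + r2 ≠ 0 := fun z => by have h3 := sq2_nn z.2; positivity
  unfold cmu
  refine Continuous.div (by fun_prop) ?_ h4
  unfold sq2; fun_prop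

/-- Weighted averages. -/
theorem wi (hp : Pr m r2 m0) {k : ℝ → ℝ} {M : ℝ} (hk : ContinuousOn k (Ioi 0)) (hb : ∀ μ : ℝ, 0 < μ → |k μ| ≤ M) :
    IntervalIntegrable (fun μ => rho m0 μ / μ * k μ) volume 0 1 ∧ |∫ μ in (0:ℝ)..1, rho m0 μ / μ * k μ| ≤ M := by
  have hM : 0 ≤ M := (abs_nonneg _).trans (hb 1 one_pos)
  have hi : IntervalIntegrable (fun μ => rho m0 μ / μ * k μ) volume 0 1 := by
    rw [intervalIntegrable_iff_integrableOn_Ioc_of_le zero_le_one]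
    refine Integrable.mono' (g := fun _ => (3 / m0 / Real.log (1 / m0)) * M) (integrable_const _) ?_ ?_
    · exact ((rho_ct.mul hk).mono Ioc_subset_Ioi_self).aestronglyMeasurable measurableSet_Ioc
    · filter_upwards [ae_restrict_mem measurableSet_Ioc] with μ hμ
      rw [Real.norm_eq_abs, abs_mul]
      exact mul_le_mul (rho_abs hp.z hp.o hμ.1) (hb μ hμ.1) (abs_nonneg _) ((abs_nonneg _).trans (rho_abs hp.z hp.o hμ.1))
  refine ⟨hi, ?_⟩
  have h1 : |∫ μ in (0:ℝ)..1, rho m0 μ / μ * k μ| ≤ ∫ μ in (0:ℝ)..1, rho m0 μ / μ * M := by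
    refine (intervalIntegral.abs_integral_le_integral_abs zero_le_one).trans ?_
    refine intervalIntegral.integral_mono_on zero_le_one hi.abs ((rho_ii hp.z hp.o).mul_const M) fun μ hμ => ?_
    rw [abs_mul, abs_of_nonneg (rho_nn' hp.z hp.o hμ.1)]
    rcases eq_or_lt_of_le hμ.1 with h | h
    · rw [← h]; simp
    · exact mul_le_mul_of_nonneg_left (hb μ h) (rho_nn' hp.z hp.o hμ.1)
  rw [intervalIntegral.integral_mul_const] at h1
  exact h1.trans (mul_le_of_le_one_left hM (rho_int hp.z hp.o))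

theorem ec_ct (H : Pf) (hp : Pr m r2 m0) (q : ℝ × ℝ) (f : Hz) : ContinuousOn (fun μ => ec (cmu m r2 μ q) f) (Ioi 0) := by
  intro μ hμ
  have h1 : Tendsto (fun μ => cmu m r2 μ q) (𝓝[Ioi 0] μ) (𝓝 (cmu m r2 μ q)) :=
    (((cmu_cont hp).comp (by fun_prop : Continuous fun μ : ℝ => (μ, q))).tendsto μ).mono_left nhdsWithin_le_nhds
  exact ec_tend H (cmu_pos hp hμ q) h1 tendsto_const_nhds

theorem Pc_ct (H : Pf) (hp : Pr m r2 m0) (q : ℝ × ℝ) (f : Hz) : ContinuousOn (fun μ => Pc (cmu m r2 μ q) f) (Ioi 0) := by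
  intro μ hμ
  have h1 : Tendsto (fun μ => cmu m r2 μ q) (𝓝[Ioi 0] μ) (𝓝 (cmu m r2 μ q)) :=
    (((cmu_cont hp).comp (by fun_prop : Continuous fun μ : ℝ => (μ, q))).tendsto μ).mono_left nhdsWithin_le_nhds
  exact Pc_tend H (cmu_pos hp hμ q) h1 tendsto_const_nhds

theorem ei_i (H : Pf) (hp : Pr m r2 m0) (q : ℝ × ℝ) (f : Hz) :
    IntervalIntegrable (fun μ => rho m0 μ / μ * ec (cmu m r2 μ q) f) volume 0 1 ∧ |Ei m r2 m0 q f| ≤ ‖f‖ ^ 2 / 2 := by
  refine wi hp (ec_ct H hp q f) fun μ hμ => ?_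
  rw [abs_of_nonneg (H.nn _ (cmu_pos hp hμ q) f)]
  exact H.eu _ (cmu_pos hp hμ q) f

theorem di_i (H : Pf) (hp : Pr m r2 m0) (q : ℝ × ℝ) (f g : Hz) :
    IntervalIntegrable (fun μ => rho m0 μ / μ * ⟪Pc (cmu m r2 μ q) f, g⟫_ℝ) volume 0 1 ∧ |dEi m r2 m0 q f g| ≤ ‖f‖ * ‖g‖ := by
  refine wi hp ((Pc_ct H hp q f).inner continuousOn_const) fun μ hμ => ?_
  exact (abs_real_inner_le_norm _ _).trans (mul_le_mul_of_nonneg_right (H.le _ (cmu_pos hp hμ q) f) (norm_nonneg _))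

theorem Ei_nn (H : Pf) (hp : Pr m r2 m0) (q : ℝ × ℝ) (f : Hz) : 0 ≤ Ei m r2 m0 q f := by
  refine intervalIntegral.integral_nonneg zero_le_one fun μ hμ => ?_
  rcases eq_or_lt_of_le hμ.1 with h | h
  · rw [← h]; simp
  · exact mul_nonneg (rho_nn' hp.z hp.o hμ.1) (H.nn _ (cmu_pos hp h q) f)

theorem Ei_le (H : Pf) (hp : Pr m r2 m0) (q : ℝ × ℝ) (f : Hz) : Ei m r2 m0 q f ≤ ‖f‖ ^ 2 / 2 :=
  (le_abs_self _).trans (ei_i H hp q f).2

theorem dEi_add (H : Pf) (hp : Pr m r2 m0) (q : ℝ × ℝ) (f g g' : Hz) :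
    dEi m r2 m0 q f (g + g') = dEi m r2 m0 q f g + dEi m r2 m0 q f g' := by
  unfold dEi
  rw [← intervalIntegral.integral_add (di_i H hp q f g).1 (di_i H hp q f g').1]
  refine intervalIntegral.integral_congr fun μ _ => ?_
  simp only [inner_add_right]; ring

theorem dEi_smul (q : ℝ × ℝ) (f g : Hz) (c : ℝ) : dEi m r2 m0 q f (c • g) = c * dEi m r2 m0 q f g := by
  unfold dEi
  rw [← intervalIntegral.integral_const_mul]
  refine intervalIntegral.integral_congr fun μ _ => ?_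
  simp only [inner_smul_right]; ring

/-- The derivative as a continuous linear map. -/
noncomputable def dL (H : Pf) (hp : Pr m r2 m0) (q : ℝ × ℝ) (f : Hz) : Hz →L[ℝ] ℝ :=
  LinearMap.mkContinuous
    { toFun := fun g => dEi m r2 m0 q f g
      map_add' := fun g g' => dEi_add H hp q f g g'
      map_smul' := fun c g => by simp [dEi_smul] } ‖f‖ fun g => (di_i H hp q f g).2

theorem dL_apply (H : Pf) (hp : Pr m r2 m0) (q : ℝ × ℝ) (f g : Hz) : dL H hp q f g = dEi m r2 m0 q f g := rfl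

theorem Ei_d (H : Pf) (hp : Pr m r2 m0) (q : ℝ × ℝ) (f h : Hz) :
    |Ei m r2 m0 q (f + h) - Ei m r2 m0 q f - dEi m r2 m0 q f h| ≤ ‖h‖ ^ 2 / 2 := by
  have h1 := wi hp (k := fun μ => ec (cmu m r2 μ q) (f + h) - ec (cmu m r2 μ q) f - ⟪Pc (cmu m r2 μ q) f, h⟫_ℝ) (M := ‖h‖ ^ 2 / 2)
    (((ec_ct H hp q (f + h)).sub (ec_ct H hp q f)).sub ((Pc_ct H hp q f).inner continuousOn_const)) ?_
  · have h2 : (∫ μ in (0:ℝ)..1, rho m0 μ / μ * (ec (cmu m r2 μ q) (f + h) - ec (cmu m r2 μ q) f - ⟪Pc (cmu m r2 μ q) f, h⟫_ℝ)) =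
        Ei m r2 m0 q (f + h) - Ei m r2 m0 q f - dEi m r2 m0 q f h := by
      unfold Ei dEi
      rw [← intervalIntegral.integral_sub (ei_i H hp q (f + h)).1 (ei_i H hp q f).1,
        ← intervalIntegral.integral_sub ((ei_i H hp q (f + h)).1.sub (ei_i H hp q f).1) (di_i H hp q f h).1]
      refine intervalIntegral.integral_congr fun μ _ => ?_
      ring
    rw [← h2]; exact h1.2
  · intro μ hμ
    have a1 := H.lo _ (cmu_pos hp hμ q) f h
    have a2 := H.hi _ (cmu_pos hp hμ q) f h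
    rw [abs_le]; constructor
    · have := sq_nonneg ‖h‖; linarith
    · linarith

theorem Ei_fd (H : Pf) (hp : Pr m r2 m0) (q : ℝ × ℝ) (f : Hz) : HasFDerivAt (Ei m r2 m0 q) (dL H hp q f) f := by
  rw [hasFDerivAt_iff_isLittleO_nhds_zero]
  have h1 : (fun h : Hz => Ei m r2 m0 q (f + h) - Ei m r2 m0 q f - dL H hp q f h) =O[𝓝 0] fun h => ‖h‖ ^ 2 := by
    refine Asymptotics.IsBigO.of_bound (1 / 2) (Eventually.of_forall fun h => ?_)
    rw [dL_apply, Real.norm_eq_abs, Real.norm_eq_abs, abs_of_nonneg (sq_nonneg ‖h‖)]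
    have := Ei_d H hp q f h
    linarith
  refine h1.trans_isLittleO ?_
  have h2 : (fun h : Hz => ‖h‖ ^ 2) =o[𝓝 0] fun h : Hz => ‖h‖ := by
    refine Asymptotics.isLittleO_iff.2 fun c hc => ?_
    filter_upwards [Metric.ball_mem_nhds (0 : Hz) hc] with h hh
    rw [mem_ball_zero_iff] at hh
    rw [Real.norm_eq_abs, abs_of_nonneg (sq_nonneg ‖h‖), norm_norm]
    nlinarith [norm_nonneg h]
  exact h2.of_norm_right

variable {ι : Type*} {l : Filter ι} [l.IsCountablyGenerated]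

theorem cmu_tend (hp : Pr m r2 m0) (μ : ℝ) {q : ι → ℝ × ℝ} {q0 : ℝ × ℝ} (hq : Tendsto q l (𝓝 q0)) :
    Tendsto (fun i => cmu m r2 μ (q i)) l (𝓝 (cmu m r2 μ q0)) :=
  (((cmu_cont hp).comp (by fun_prop : Continuous fun q : ℝ × ℝ => (μ, q))).tendsto q0).comp hq

theorem Ei_tend (H : Pf) (hp : Pr m r2 m0) {q : ι → ℝ × ℝ} {f : ι → Hz} {q0 : ℝ × ℝ} {f0 : Hz} (hq : Tendsto q l (𝓝 q0))
    (hf : Tendsto f l (𝓝 f0)) : Tendsto (fun i => Ei m r2 m0 (q i) (f i)) l (𝓝 (Ei m r2 m0 q0 f0)) := by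
  unfold Ei
  refine intervalIntegral.tendsto_integral_filter_of_dominated_convergence
    (fun _ => (3 / m0 / Real.log (1 / m0)) * ((‖f0‖ + 1) ^ 2 / 2)) ?_ ?_ intervalIntegrable_const ?_
  · refine Eventually.of_forall fun i => ?_
    exact (intervalIntegrable_iff.1 (ei_i H hp (q i) (f i)).1).aestronglyMeasurable
  · have h1 : ∀ᶠ i in l, ‖f i‖ ≤ ‖f0‖ + 1 := (hf.norm.eventually (ge_mem_nhds (by linarith : ‖f0‖ < ‖f0‖ + 1)))
    filter_upwards [h1] with i hi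
    refine Eventually.of_forall fun μ hμ => ?_
    rw [uIoc_of_le zero_le_one] at hμ
    rw [Real.norm_eq_abs, abs_mul]
    refine mul_le_mul (rho_abs hp.z hp.o hμ.1) ?_ (abs_nonneg _) ((abs_nonneg _).trans (rho_abs hp.z hp.o hμ.1))
    rw [abs_of_nonneg (H.nn _ (cmu_pos hp hμ.1 _) _)]
    refine (H.eu _ (cmu_pos hp hμ.1 _) _).trans ?_
    have := norm_nonneg (f i)
    nlinarith
  · refine Eventually.of_forall fun μ hμ => ?_
    rw [uIoc_of_le zero_le_one] at hμ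
    exact (ec_tend H (cmu_pos hp hμ.1 q0) (cmu_tend hp μ hq) hf).const_mul _

theorem dEi_tend (H : Pf) (hp : Pr m r2 m0) {q : ι → ℝ × ℝ} {f g : ι → Hz} {q0 : ℝ × ℝ} {f0 g0 : Hz} (hq : Tendsto q l (𝓝 q0))
    (hf : Tendsto f l (𝓝 f0)) (hg : Tendsto g l (𝓝 g0)) : Tendsto (fun i => dEi m r2 m0 (q i) (f i) (g i)) l (𝓝 (dEi m r2 m0 q0 f0 g0)) := by
  unfold dEi
  refine intervalIntegral.tendsto_integral_filter_of_dominated_convergence
    (fun _ => (3 / m0 / Real.log (1 / m0)) * ((‖f0‖ + 1) * (‖g0‖ + 1))) ?_ ?_ intervalIntegrable_const ?_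
  · refine Eventually.of_forall fun i => ?_
    exact (intervalIntegrable_iff.1 (di_i H hp (q i) (f i) (g i)).1).aestronglyMeasurable
  · have h1 : ∀ᶠ i in l, ‖f i‖ ≤ ‖f0‖ + 1 := (hf.norm.eventually (ge_mem_nhds (by linarith : ‖f0‖ < ‖f0‖ + 1)))
    have h2 : ∀ᶠ i in l, ‖g i‖ ≤ ‖g0‖ + 1 := (hg.norm.eventually (ge_mem_nhds (by linarith : ‖g0‖ < ‖g0‖ + 1)))
    filter_upwards [h1, h2] with i hi hi2
    refine Eventually.of_forall fun μ hμ => ?_
    rw [uIoc_of_le zero_le_one] at hμ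
    rw [Real.norm_eq_abs, abs_mul]
    refine mul_le_mul (rho_abs hp.z hp.o hμ.1) ?_ (abs_nonneg _) ((abs_nonneg _).trans (rho_abs hp.z hp.o hμ.1))
    refine (abs_real_inner_le_norm _ _).trans ?_
    exact mul_le_mul ((H.le _ (cmu_pos hp hμ.1 _) _).trans hi) hi2 (norm_nonneg _) (by positivity)
  · refine Eventually.of_forall fun μ hμ => ?_
    rw [uIoc_of_le zero_le_one] at hμ
    exact ((Pc_tend H (cmu_pos hp hμ.1 q0) (cmu_tend hp μ hq) hf).inner hg).const_mul _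

end Pool.Agent.H16.TQ
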