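import Pool.Agent.H16.TQ.ToH
import Pool.Agent.H16.TQ.Ei
import Pool.Agent.H94.EP.DyQ

/-! The localised functions `cb L b * a` on the fibres. -/

set_option autoImplicit false

open Set Filter Topology MeasureTheory
open scoped ContDiff InnerProductSpace

namespace Pool.Agent.H16.TQ

open Pool.Agent.H16 Pool.Agent.H87.NS Pool.Agent.H72.CC Pool.Agent.H16.TU Pool.Agent.H94.EP Pool.Agent.H42.TQ Pool.Agent.H37.EP

variable {T : ℝ} {L : ℝ}

theorem pt_2 (q : ℝ × ℝ) (z : ℝ) : pt q z 2 = z := rfl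

theorem pt_rsq (q : ℝ × ℝ) (z : ℝ) : rsq (pt q z) = sq2 q := rfl

theorem pt_cont : Continuous (fun y : (ℝ × ℝ) × ℝ => pt y.1 y.2) := by
  unfold pt
  fun_prop

theorem rsq_cont : Continuous (rsq : E3 → ℝ) := by
  unfold rsq; fun_prop

theorem c2_cont : Continuous c2 := by
  unfold c2
  exact Real.smoothTransition.continuous.comp (by have := rsq_cont; fun_prop)

theorem c2_01 (x : E3) : 0 ≤ c2 x ∧ c2 x ≤ 1 := ⟨Real.smoothTransition.nonneg _, Real.smoothTransition.le_one _⟩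

theorem c2_z {x : E3} (h : 1 / 8 ≤ rsq x) : c2 x = 0 := Real.smoothTransition.zero_of_nonpos (by linarith)

theorem cb_cont : Continuous (fun y : ℝ × E3 => cb L y.1 y.2) := by
  unfold cb
  have h1 := c2_cont
  have h2 : Continuous (fun y : ℝ × E3 => c2 y.2) := h1.comp continuous_snd
  refine (h2.pow 2).mul (Real.smoothTransition.continuous.comp ?_)
  fun_prop

theorem cb_01 (b : ℝ) (x : E3) : 0 ≤ cb L b x ∧ cb L b x ≤ 1 := by
  have h1 := c2_01 x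
  have h2 := Real.smoothTransition.nonneg (2 - ((x 2 - b) / L) ^ 2)
  have h3 := Real.smoothTransition.le_one (2 - ((x 2 - b) / L) ^ 2)
  unfold cb
  exact ⟨by positivity, mul_le_one₀ (pow_le_one₀ h1.1 h1.2) h2 h3⟩

theorem cb_z (hL : 0 < L) {b : ℝ} {x : E3} (h : 2 * L < |x 2 - b|) : cb L b x = 0 := by
  unfold cb
  rw [Real.smoothTransition.zero_of_nonpos, mul_zero]
  rw [div_pow, ← sq_abs (x 2 - b), sub_nonpos, le_div_iff₀ (by positivity)]
  have h1 : 0 < |x 2 - b| := by linarith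
  nlinarith

theorem cb_z' {b : ℝ} {x : E3} (h : 1 / 8 ≤ rsq x) : cb L b x = 0 := by
  unfold cb; rw [c2_z h]; simp

/-- The localised function. -/
noncomputable def Fa (L : ℝ) (a : ℝ → E3 → ℝ) (b t : ℝ) (x : E3) : ℝ := cb L b x * a t x

/-- Jointly continuous, locally bounded in time. -/
structure Ja (T : ℝ) (a : ℝ → E3 → ℝ) : Prop where
  ct : ContinuousOn (fun q : ℝ × E3 => a q.1 q.2) (Ico 0 T ×ˢ univ)
  bd : ∀ b < T, ∃ K : ℝ, 0 ≤ K ∧ ∀ t ∈ Icc 0 b, ∀ x, |a t x| ≤ K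

theorem Ja.x {a : ℝ → E3 → ℝ} (h : Ja T a) {t : ℝ} (ht : t ∈ Ico 0 T) : Continuous (a t) := by
  rw [← continuousOn_univ]
  exact h.ct.comp (f := fun x : E3 => (t, x)) (by fun_prop) fun x _ => ⟨ht, trivial⟩

theorem Fa_bc {a : ℝ → E3 → ℝ} (h : Ja T a) (hL : 0 < L) {t : ℝ} (ht : t ∈ Ico 0 T) (b : ℝ) (q : ℝ × ℝ) {R : ℝ} (hR : |b| + 2 * L ≤ R) :
    Bc R (fun z => Fa L a b t (pt q z)) := by
  have hp : Continuous (fun z : ℝ => pt q z) := pt_cont.comp (by fun_prop : Continuous fun z : ℝ => (q, z))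
  refine ⟨?_, fun z hz => ?_⟩
  · unfold Fa
    refine Continuous.mul ?_ ((h.x ht).comp hp)
    exact cb_cont.comp (f := fun z : ℝ => (b, pt q z)) (by fun_prop)
  · unfold Fa
    rw [cb_z hL (x := pt q z), zero_mul]
    rw [pt_2]
    have := abs_sub_abs_le_abs_sub z b
    linarith

theorem Fa_le {a : ℝ → E3 → ℝ} {t K : ℝ} (hK : ∀ x, |a t x| ≤ K) (b : ℝ) (x : E3) : |Fa L a b t x| ≤ K := by
  unfold Fa
  rw [abs_mul, abs_of_nonneg (cb_01 b x).1]
  exact (mul_le_of_le_one_left (abs_nonneg _) (cb_01 b x).2).trans (hK x)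

/-- The fibre of the localised function. -/
noncomputable def fa (L : ℝ) (a : ℝ → E3 → ℝ) (b : ℝ) (q : ℝ × ℝ) (t : ℝ) : Hz := toH (fun z => Fa L a b t (pt q z))

theorem fa_z {a : ℝ → E3 → ℝ} {b t : ℝ} {q : ℝ × ℝ} (h : 1 / 8 ≤ sq2 q) : fa L a b q t = 0 := by
  have h1 : (fun z => Fa L a b t (pt q z)) = fun _ => 0 := by
    funext z
    unfold Fa
    rw [cb_z' (x := pt q z) (by rw [pt_rsq]; exact h), zero_mul]
  unfold fa
  rw [h1, toH_zero]

theorem fa_norm {a : ℝ → E3 → ℝ} (h : Ja T a) (hL : 0 < L) {t : ℝ} (ht : t ∈ Ico 0 T) {K : ℝ} (hK : ∀ x, |a t x| ≤ K)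
    (b : ℝ) (q : ℝ × ℝ) : ‖fa L a b q t‖ ^ 2 ≤ 4 * L * K ^ 2 := by
  have hb := Fa_bc h hL ht b q le_rfl
  unfold fa
  rw [toH_norm hb.mem]
  have hK0 : 0 ≤ K := (abs_nonneg _).trans (hK 0)
  have h1 : ∀ z, Fa L a b t (pt q z) ^ 2 ≤ (Icc (b - 2 * L) (b + 2 * L)).indicator (fun _ => K ^ 2) z := by
    intro z
    by_cases hz : z ∈ Icc (b - 2 * L) (b + 2 * L)
    · rw [indicator_of_mem hz, ← sq_abs]
      exact pow_le_pow_left₀ (abs_nonneg _) (Fa_le hK b _) 2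
    · rw [indicator_of_notMem hz]
      have : cb L b (pt q z) = 0 := by
        refine cb_z hL ?_
        rw [pt_2]
        by_contra h
        rw [not_lt, abs_le] at h
        exact hz ⟨by linarith [h.1], by linarith [h.2]⟩
      unfold Fa; rw [this]; simp
  have hi : Integrable ((Icc (b - 2 * L) (b + 2 * L)).indicator fun _ : ℝ => K ^ 2) :=
    (integrable_indicator_iff measurableSet_Icc).2 (integrableOn_const (by simp))
  refine (integral_mono_of_nonneg (Eventually.of_forall fun z => sq_nonneg _) hi (Eventually.of_forall h1)).trans ?_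
  rw [integral_indicator measurableSet_Icc, setIntegral_const, Real.volume_real_Icc]
  rw [max_eq_left (by linarith)]
  simp only [smul_eq_mul]
  linarith

/-- Joint continuity of the fibres. -/
theorem fa_ct {a : ℝ → E3 → ℝ} (h : Ja T a) (hL : 0 < L) :
    ContinuousOn (fun y : ℝ × (ℝ × ℝ) × ℝ => fa L a y.1 y.2.1 y.2.2) {y | y.2.2 ∈ Ico 0 T} := by
  intro y0 hy0
  obtain ⟨b0, q0, t0⟩ := y0
  change t0 ∈ Ico 0 T at hy0
  have ht1 : t0 < (t0 + T) / 2 := by linarith [hy0.2]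
  obtain ⟨K, K0, hK⟩ := h.bd ((t0 + T) / 2) (by linarith [hy0.2])
  unfold ContinuousWithinAt
  refine toH_tend (R := |b0| + 1 + 2 * L) (M := K) ?_ ?_ ?_ ?_
  · have e1 : ∀ᶠ y : ℝ × (ℝ × ℝ) × ℝ in 𝓝[{y | y.2.2 ∈ Ico 0 T}] (b0, q0, t0), |y.1| < |b0| + 1 :=
      ((continuous_fst.abs.tendsto _).eventually (gt_mem_nhds (by simp))).filter_mono nhdsWithin_le_nhds
    have e2 : ∀ᶠ y : ℝ × (ℝ × ℝ) × ℝ in 𝓝[{y | y.2.2 ∈ Ico 0 T}] (b0, q0, t0), y.2.2 < (t0 + T) / 2 :=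
      (((continuous_snd.comp continuous_snd).tendsto (b0, q0, t0)).eventually (gt_mem_nhds ht1)).filter_mono nhdsWithin_le_nhds
    filter_upwards [e1, e2, self_mem_nhdsWithin] with y h1 h2 h3
    exact ⟨Fa_bc h hL h3 y.1 y.2.1 (by linarith), fun z => Fa_le (hK y.2.2 ⟨h3.1, h2.le⟩) _ _⟩
  · exact Fa_bc h hL hy0 b0 q0 (by linarith)
  · exact fun z => Fa_le (hK t0 ⟨hy0.1, ht1.le⟩) _ _
  · intro z
    unfold Fa
    have hp : Continuous (fun y : ℝ × (ℝ × ℝ) × ℝ => pt y.2.1 z) := pt_cont.comp (by fun_prop : Continuous fun y : ℝ × (ℝ × ℝ) × ℝ => (y.2.1, z))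
    refine Tendsto.mul ?_ ?_
    · refine Tendsto.mono_left ?_ nhdsWithin_le_nhds
      exact (cb_cont.comp (f := fun y : ℝ × (ℝ × ℝ) × ℝ => (y.1, pt y.2.1 z)) (by fun_prop)).tendsto (b0, q0, t0)
    · exact (h.ct.comp (f := fun y : ℝ × (ℝ × ℝ) × ℝ => (y.2.2, pt y.2.1 z)) (by fun_prop) fun y hy => ⟨hy, trivial⟩) (b0, q0, t0) hy0

/-- `a'` is the time derivative of `a`. -/
def Dt (T : ℝ) (a a' : ℝ → E3 → ℝ) : Prop :=
  ∀ t₁ t₂ : ℝ, 0 ≤ t₁ → t₁ ≤ t₂ → t₂ < T → ∀ x, a t₂ x = a t₁ x + ∫ s in t₁..t₂, a' s x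

theorem Ja.t {a : ℝ → E3 → ℝ} (h : Ja T a) (x : E3) : ContinuousOn (fun t => a t x) (Ico 0 T) :=
  h.ct.comp (f := fun t : ℝ => (t, x)) (by fun_prop) fun _ ht => ⟨ht, trivial⟩

theorem Dt_der {a a' : ℝ → E3 → ℝ} (h' : Ja T a') (hd : Dt T a a') {b : ℝ} (hb : b < T) {t : ℝ} (ht : t ∈ Ioo 0 b) (x : E3) :
    HasDerivAt (fun t => a t x) (a' t x) t := by
  have hc : ContinuousOn (fun t => a' t x) (Icc 0 b) := (h'.t x).mono fun s hs => ⟨hs.1, lt_of_le_of_lt hs.2 hb⟩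
  have h1 : HasDerivAt (fun t => ∫ s in (0:ℝ)..t, a' s x) (a' t x) t := by
    refine intervalIntegral.integral_hasDerivAt_right ?_ ?_ (hc.continuousAt (Icc_mem_nhds ht.1 ht.2))
    · refine (hc.mono fun s hs => ?_).intervalIntegrable
      rw [uIcc_of_le ht.1.le] at hs
      exact ⟨hs.1, hs.2.trans ht.2.le⟩
    · exact hc.stronglyMeasurableAtFilter_nhdsWithin measurableSet_Icc t |>.filter_mono (by rw [nhdsWithin_eq_nhds.2 (Icc_mem_nhds ht.1 ht.2)])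
  have h2 : (fun t => a t x) =ᶠ[𝓝 t] fun t => a 0 x + ∫ s in (0:ℝ)..t, a' s x := by
    filter_upwards [Ioo_mem_nhds ht.1 ht.2] with s hs
    exact hd 0 s le_rfl hs.1.le (hs.2.trans hb) x
  exact (h1.const_add (a 0 x)).congr_of_eventuallyEq h2

theorem Dt_lip {a a' : ℝ → E3 → ℝ} (hd : Dt T a a') {b K : ℝ} (hb : b < T) (hK : ∀ t ∈ Icc 0 b, ∀ x, |a' t x| ≤ K)
    {s t : ℝ} (hs : s ∈ Icc 0 b) (ht : t ∈ Icc 0 b) (x : E3) : |a t x - a s x| ≤ K * |t - s| := by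
  have key : ∀ s t : ℝ, s ∈ Icc 0 b → t ∈ Icc 0 b → s ≤ t → |a t x - a s x| ≤ K * |t - s| := by
    intro s t hs ht hst
    rw [hd s t hs.1 hst (lt_of_le_of_lt ht.2 hb) x, add_sub_cancel_left]
    have := intervalIntegral.norm_integral_le_of_norm_le_const (a := s) (b := t) (f := fun r => a' r x) (C := K) fun r hr => by
      rw [uIoc_of_le hst] at hr
      exact hK r ⟨hs.1.trans hr.1.le, hr.2.trans ht.2⟩ x
    exact this
  rcases le_total s t with h | h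
  · exact key s t hs ht h
  · rw [abs_sub_comm, abs_sub_comm t s]; exact key t s ht hs h

/-- The curve of the fibres is differentiable in time. -/
theorem fa_der {a a' : ℝ → E3 → ℝ} (h : Ja T a) (h' : Ja T a') (hd : Dt T a a') (hL : 0 < L) (b' : ℝ) (q : ℝ × ℝ) {b : ℝ} (hb : b < T)
    {t : ℝ} (ht : t ∈ Ioo 0 b) : HasDerivAt (fun t => fa L a b' q t) (fa L a' b' q t) t := by
  obtain ⟨K, K0, hK⟩ := h'.bd b hb
  have h1 : HasDerivWithinAt (fun t => fa L a b' q t) (fa L a' b' q t) (Icc 0 b) t := by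
    refine toH_der (R := |b'| + 2 * L) (M := K) ⟨ht.1.le, ht.2.le⟩ (fun s hs => ?_) (fun s hs z => ?_) ?_ ?_ ?_
    · exact Fa_bc h hL ⟨hs.1, lt_of_le_of_lt hs.2 hb⟩ b' q le_rfl
    · unfold Fa
      rw [← mul_sub, abs_mul, abs_of_nonneg (cb_01 b' _).1]
      exact (mul_le_of_le_one_left (abs_nonneg _) (cb_01 b' _).2).trans (Dt_lip hd hb hK ⟨ht.1.le, ht.2.le⟩ hs _)
    · exact Fa_bc h' hL ⟨ht.1.le, ht.2.trans hb⟩ b' q le_rfl
    · exact fun z => Fa_le (hK t ⟨ht.1.le, ht.2.le⟩) _ _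
    · intro z
      unfold Fa
      exact ((Dt_der h' hd hb ht (pt q z)).const_mul _).hasDerivWithinAt
  exact h1.hasDerivAt (Icc_mem_nhds ht.1 ht.2)

end Pool.Agent.H16.TQ
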