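import Pool.Agent.H16.TQ.Pos
import Pool.Agent.H42.TQ.A2
import Pool.Agent.H37.TQ.Dt
import Pool.Agent.H37.TQ.Lip
import Pool.Agent.H67.TQ.P
import Pool.Agent.H94.EP.EvP
import Pool.Agent.H94.EP.DyN

/-! Group D (dynamic part), exit statements. -/

set_option autoImplicit false

open Set Filter Topology MeasureTheory
open scoped ContDiff InnerProductSpace ENNReal

namespace Pool.Agent.H16.TQ

open Pool.Agent.H16 Pool.Agent.H87.NS Pool.Agent.H72.CC Pool.Agent.H16.TU Pool.Agent.H94.EP Pool.Agent.H42.TQ Pool.Agent.H37.EP Pool.Agent.H37.TQ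

/-- The facts on the projections. -/
theorem pf : Pf where
  lip := fun _ hc f g => Pc_lip hc.le f g
  le := fun _ hc f => Pc_norm hc.le f
  nn := fun _ hc f => ec_nonneg hc.le f
  eu := fun c _ f => ec_le c f
  lo := fun _ hc f h => ec_lo hc.le f h
  hi := fun _ hc f h => ec_up hc.le f h
  cc := fun c c' hc h f => by
    have h1 := Pc_rel hc (lt_of_lt_of_le hc h) f
    rwa [abs_of_nonneg (by rw [sub_nonneg, one_le_div hc]; exact h)] at h1

variable {T : ℝ} {u : ℝ → E3 → E3} {p : ℝ → E3 → ℝ} {m r2 m0 L : ℝ}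

theorem jaO (h : IsHInfAxisymNS T u p) : Ja T fun t => sO (u t) := by
  refine ⟨(evoO h).cont, fun b hb => ?_⟩
  obtain ⟨K, K0, hK⟩ := tO_bd h hb
  exact ⟨K, K0, fun t ht x => (hK t ht x).1⟩

theorem jaT (h : IsHInfAxisymNS T u p) : Ja T fun t => tO (u t) := by
  refine ⟨tO_jc h, fun b hb => ?_⟩
  obtain ⟨K, K0, hK⟩ := tO_bd h hb
  exact ⟨K, K0, fun t ht x => (hK t ht x).2⟩

theorem dtO (h : IsHInfAxisymNS T u p) : Dt T (fun t => sO (u t)) fun t => tO (u t) :=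
  fun _ _ h1 h12 h2 x => tO_ftc h h1 h12 h2 x

theorem ps_ct (h : IsHInfAxisymNS T u p) (hp : Pr m r2 m0) (hL : 1 ≤ L) (c : ℝ) :
    ContinuousOn (fun t => PS m r2 m0 L c (u t)) (Ico 0 T) := PS_ct pf hp hL (jaO h) c

theorem rp_ct (h : IsHInfAxisymNS T u p) (hp : Pr m r2 m0) (hL : 1 ≤ L) (c : ℝ) :
    ContinuousOn (fun t => RP m r2 m0 L c (u t)) (Ico 0 T) := RP_ct pf hp hL (jaO h) (jaT h) c

theorem ps_ftc (h : IsHInfAxisymNS T u p) (hp : Pr m r2 m0) (hL : 1 ≤ L) (c : ℝ) {t₁ t₂ : ℝ} (h1 : 0 ≤ t₁) (h12 : t₁ ≤ t₂) (h2 : t₂ < T) :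
    PS m r2 m0 L c (u t₂) = PS m r2 m0 L c (u t₁) + ∫ s in t₁..t₂, RP m r2 m0 L c (u s) :=
  PS_ftc pf hp hL (jaO h) (jaT h) (dtO h) c h1 h12 h2

theorem ps_nn (hp : Pr m r2 m0) (hL : 1 ≤ L) (c : ℝ) (v : E3 → E3) : 0 ≤ PS m r2 m0 L c v := PS_nn pf hp (by linarith) c v

/-- The functional with the final parameters. -/
noncomputable def PSf (mf : ℝ → ℝ) (κ L a : ℝ) (v : E3 → E3) : ℝ := PS (mf κ) (rz κ) (mz κ L) L a v

/-- The rate with the final parameters. -/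
noncomputable def RQf (dl : ℝ) (mf : ℝ → ℝ) (κ L a : ℝ) (v : E3 → E3) : ℝ := RQ dl (mf κ) (rz κ) (mz κ L) L a v

variable {mf : ℝ → ℝ} {dl : ℝ}

theorem pr (hm : ∀ κ : ℝ, 1 ≤ κ → 0 < mf κ) {κ : ℝ} (hκ : 1 ≤ κ) (hL : 1 ≤ L) : Pr (mf κ) (rz κ) (mz κ L) := by
  have h1 : 1 ≤ κ * L := by nlinarith
  refine ⟨hm κ hκ, ?_, ?_, ?_⟩
  · unfold rz; positivity
  · unfold mz; positivity
  · unfold mz; exact inv_le_one_of_one_le₀ (one_le_pow₀ h1)

theorem bO {v : E3 → E3} (hv : Vs v) : Continuous (sO v) ∧ ∃ K : ℝ, ∀ x, |sO v x| ≤ K := by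
  have h := (Pool.Agent.H87.EP.vs_ri hv).2.2.1
  obtain ⟨K, hK⟩ := h.db 0
  exact ⟨h.sm.continuous, K, hK.1⟩

theorem qpos (hm : ∀ κ : ℝ, 1 ≤ κ → 0 < mf κ) (h0 : 0 ≤ dl) (h1 : dl ≤ 1 / 72) : Pool.Agent.H67.TQ.QPos (PSf mf) dl := by
  intro κ L a v hv hκ hL
  have hp := pr (mf := mf) hm hκ hL
  obtain ⟨hc, K, hK⟩ := bO hv
  have hi : Integrable fun x => A1 L a x * sO v x ^ 2 := by
    have hm' : AEStronglyMeasurable (fun x => sO v x ^ 2) volume := (hc.pow 2).aestronglyMeasurable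
    refine (A1_int hL a).mul_bdd (c := K ^ 2) hm' (Eventually.of_forall fun x => ?_)
    rw [Real.norm_eq_abs, abs_pow]
    exact pow_le_pow_left₀ (abs_nonneg _) (hK x) 2
  have e1 := ps_nn hp hL a v
  have e2 := PS_le pf hp hL a hc hK hi
  refine ⟨mul_nonneg h0 e1, ?_⟩
  unfold PSf
  nlinarith

theorem qcont (hm : ∀ κ : ℝ, 1 ≤ κ → 0 < mf κ) : Pool.Agent.H67.TQ.QCont (PSf mf) :=
  fun _ _ _ h _ _ a hκ hL => ps_ct h (pr (mf := mf) hm hκ hL) hL a

theorem qin (hm : ∀ κ : ℝ, 1 ≤ κ → 0 < mf κ) : Pool.Agent.H67.TQ.QIn (PSf mf) (RQf dl mf) dl := by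
  intro T u p h θ l κ L a hθ hθ1 hl hκ hL t₁ t₂ h1 h12 h2 hh hc hb
  have hp := pr (mf := mf) hm hκ hL
  have hsub : uIcc t₁ t₂ ⊆ Ico 0 T := by
    rw [uIcc_of_le h12]
    intro t ht
    exact ⟨h1.trans ht.1, lt_of_le_of_lt ht.2 h2⟩
  have hJ := Pool.Agent.H16.EP.pJ h hL a h1 h12 h2
  have hB := Pool.Agent.H16.EP.pB h hθ (by linarith) hL a h1 h12 h2
  have hN := NO_ftc h hL a h1 h12 h2
  have hP := ps_ftc h hp hL a h1 h12 h2
  obtain ⟨-, -, -, -, -, -, cJ, -, cB⟩ := p2c h (l := l) (a := a) hθ hθ1 hL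
  have iJ : IntervalIntegrable (fun s => RJ L a (u s)) volume t₁ t₂ := (cJ.mono hsub).intervalIntegrable
  have iB : IntervalIntegrable (fun s => RB θ L a (u s)) volume t₁ t₂ := (cB.mono hsub).intervalIntegrable
  have iN : IntervalIntegrable (fun s => RN L a (u s)) volume t₁ t₂ := ((RN_ct h hL a).mono hsub).intervalIntegrable
  have iP : IntervalIntegrable (fun s => RP (mf κ) (rz κ) (mz κ L) L a (u s)) volume t₁ t₂ := ((rp_ct h hp hL a).mono hsub).intervalIntegrable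
  have iH : IntervalIntegrable hh volume t₁ t₂ := by
    refine ContinuousOn.intervalIntegrable ?_
    rw [uIcc_of_le h12]; exact hc
  have k1 : (∫ s in t₁..t₂, (RN L a (u s) - dl * RP (mf κ) (rz κ) (mz κ L) L a (u s))) ≤ ∫ s in t₁..t₂, hh s :=
    intervalIntegral.integral_mono_on h12 (iN.sub (iP.const_mul dl)) iH hb
  rw [intervalIntegral.integral_sub iN (iP.const_mul dl), intervalIntegral.integral_const_mul] at k1
  have k2 : (∫ s in t₁..t₂, (RJ L a (u s) / 2 + RB θ L a (u s) / 2 + l * hh s))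
      = (∫ s in t₁..t₂, RJ L a (u s)) / 2 + (∫ s in t₁..t₂, RB θ L a (u s)) / 2 + l * (∫ s in t₁..t₂, hh s) := by
    rw [intervalIntegral.integral_add ((iJ.div_const 2).add (iB.div_const 2)) (iH.const_mul l),
      intervalIntegral.integral_add (iJ.div_const 2) (iB.div_const 2),
      intervalIntegral.integral_const_mul, intervalIntegral.integral_div, intervalIntegral.integral_div]
  rw [k2]
  have k3 := mul_le_mul_of_nonneg_left k1 hl
  simp only [Pool.Agent.H67.TQ.FQ, FF, PSf]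
  rw [hP]
  have k4 : l * (NO L a (u t₂) / 2) = l * (NO L a (u t₁) / 2) + l * ∫ s in t₁..t₂, RN L a (u s) := by rw [hN]; ring
  nlinarith

end Pool.Agent.H16.TQ
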