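import Pool.Agent.H42.TQ.Defs

/-! The projections: continuity in both arguments. -/

set_option autoImplicit false

open Set Filter Topology MeasureTheory
open scoped ContDiff InnerProductSpace

namespace Pool.Agent.H16.TQ

open Pool.Agent.H16 Pool.Agent.H87.NS Pool.Agent.H72.CC Pool.Agent.H16.TU Pool.Agent.H94.EP Pool.Agent.H42.TQ

/-- The facts on the projections used here. -/
structure Pf : Prop where
  lip : ∀ c : ℝ, 0 < c → ∀ f g : Hz, ‖Pc c f - Pc c g‖ ≤ ‖f - g‖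
  le : ∀ c : ℝ, 0 < c → ∀ f : Hz, ‖Pc c f‖ ≤ ‖f‖
  nn : ∀ c : ℝ, 0 < c → ∀ f : Hz, 0 ≤ ec c f
  eu : ∀ c : ℝ, 0 < c → ∀ f : Hz, ec c f ≤ ‖f‖ ^ 2 / 2
  lo : ∀ c : ℝ, 0 < c → ∀ f h : Hz, ec c f + ⟪Pc c f, h⟫_ℝ ≤ ec c (f + h)
  hi : ∀ c : ℝ, 0 < c → ∀ f h : Hz, ec c (f + h) ≤ ec c f + ⟪Pc c f, h⟫_ℝ + ‖h‖ ^ 2 / 2
  cc : ∀ c c' : ℝ, 0 < c → c ≤ c' → ∀ f : Hz, ‖Pc c' f - Pc c f‖ ≤ (c' / c - 1) * ‖Pc c f‖

variable {ι : Type*} {l : Filter ι}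

theorem Pc_tend (H : Pf) {c : ι → ℝ} {f : ι → Hz} {c0 : ℝ} {f0 : Hz} (h0 : 0 < c0) (hc : Tendsto c l (𝓝 c0)) (hf : Tendsto f l (𝓝 f0)) :
    Tendsto (fun i => Pc (c i) (f i)) l (𝓝 (Pc c0 f0)) := by
  rw [tendsto_iff_norm_sub_tendsto_zero]
  have h1 : Tendsto (fun i => ‖f i - f0‖ + (max (c i) c0 / min (c i) c0 - 1) * ‖f0‖) l (𝓝 (0 + (max c0 c0 / min c0 c0 - 1) * ‖f0‖)) := by
    refine Tendsto.add ?_ (Tendsto.mul_const _ (Tendsto.sub_const (Tendsto.div (hc.max tendsto_const_nhds) (hc.min tendsto_const_nhds) ?_) 1))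
    · rw [← tendsto_iff_norm_sub_tendsto_zero]; exact hf
    · simpa using h0.ne'
  have h2 : (0 : ℝ) + (max c0 c0 / min c0 c0 - 1) * ‖f0‖ = 0 := by
    rw [max_self, min_self, div_self h0.ne']; ring
  rw [h2] at h1
  refine squeeze_zero' (Eventually.of_forall fun i => norm_nonneg _) ?_ h1
  filter_upwards [hc.eventually (lt_mem_nhds h0)] with i hi
  have a1 : ‖Pc (c i) (f i) - Pc c0 f0‖ ≤ ‖Pc (c i) (f i) - Pc (c i) f0‖ + ‖Pc (c i) f0 - Pc c0 f0‖ := norm_sub_le_norm_sub_add_norm_sub _ _ _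
  have a2 := H.lip (c i) hi (f i) f0
  have a3 : ‖Pc (c i) f0 - Pc c0 f0‖ ≤ (max (c i) c0 / min (c i) c0 - 1) * ‖f0‖ := by
    rcases le_total (c i) c0 with h | h
    · rw [max_eq_right h, min_eq_left h, norm_sub_rev]
      refine (H.cc (c i) c0 hi h f0).trans (mul_le_mul_of_nonneg_left (H.le _ hi f0) ?_)
      rw [sub_nonneg, one_le_div hi]; exact h
    · rw [max_eq_left h, min_eq_right h]
      refine (H.cc c0 (c i) h0 h f0).trans (mul_le_mul_of_nonneg_left (H.le _ h0 f0) ?_)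
      rw [sub_nonneg, one_le_div h0]; exact h
  linarith

theorem ec_tend (H : Pf) {c : ι → ℝ} {f : ι → Hz} {c0 : ℝ} {f0 : Hz} (h0 : 0 < c0) (hc : Tendsto c l (𝓝 c0)) (hf : Tendsto f l (𝓝 f0)) :
    Tendsto (fun i => ec (c i) (f i)) l (𝓝 (ec c0 f0)) := by
  have h1 := Pc_tend H h0 hc hf
  unfold ec
  exact (hf.inner h1).sub ((h1.norm.pow 2).div_const 2)

end Pool.Agent.H16.TQ
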