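import Pool.Agent.H16.TQ.Pst
import Pool.Agent.H72.CC.Cyl

/-! `0 ≤ PS ≤ 18 NO`. -/

set_option autoImplicit false

open Set Filter Topology MeasureTheory
open scoped ContDiff InnerProductSpace ENNReal

namespace Pool.Agent.H16.TQ

open Pool.Agent.H16 Pool.Agent.H87.NS Pool.Agent.H72.CC Pool.Agent.H16.TU Pool.Agent.H94.EP Pool.Agent.H42.TQ Pool.Agent.H37.EP

variable {L m r2 m0 c : ℝ}

theorem pt_xx (x : E3) : pt (x 0, x 1) (x 2) = x := by
  apply ext3 <;> rfl

/-- Fubini on `E3`. -/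
theorem tri {f : E3 → ℝ≥0∞} (hf : Measurable f) : ∫⁻ x, f x = ∫⁻ q : ℝ × ℝ, ∫⁻ z, f (pt q z) := by
  have hg : Measurable (fun y : ℝ × (ℝ × ℝ) => f (pt y.2 y.1)) :=
    hf.comp (pt_cont.comp (by fun_prop : Continuous fun y : ℝ × (ℝ × ℝ) => (y.2, y.1))).measurable
  have h1 := Cyl_mp.lintegral_comp hg
  simp only [pt_xx] at h1
  rw [h1, Measure.volume_eq_prod, lintegral_prod_symm _ hg.aemeasurable]

theorem ph_cmp (hL : 0 < L) (c : ℝ) {b z : ℝ} (h : |z - b| ≤ 2 * L) : ph L c b ≤ 9 * ph L c z := by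
  have h0 : (z - b) ^ 2 ≤ 4 * L ^ 2 := by
    have := sq_abs (z - b)
    nlinarith [abs_nonneg (z - b)]
  have h1 : (z - c) ^ 2 ≤ 2 * (b - c) ^ 2 + 8 * L ^ 2 := by nlinarith [sq_nonneg ((b - c) - (z - b))]
  have h2 : 1 + (z - c) ^ 2 / L ^ 2 ≤ 9 * (1 + (b - c) ^ 2 / L ^ 2) := by
    have e1 : (z - c) ^ 2 / L ^ 2 ≤ (2 * (b - c) ^ 2 + 8 * L ^ 2) / L ^ 2 := div_le_div_of_nonneg_right h1 (by positivity)
    have e2 : (2 * (b - c) ^ 2 + 8 * L ^ 2) / L ^ 2 = 2 * ((b - c) ^ 2 / L ^ 2) + 8 := by field_simp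
    have e3 : 0 ≤ (b - c) ^ 2 / L ^ 2 := by positivity
    linarith
  unfold ph
  rw [← div_eq_mul_inv, inv_eq_one_div, div_le_div_iff₀ (by positivity) (by positivity)]
  linarith

theorem c1_one {x : E3} (h : rsq x ≤ 1 / 4) : Pool.Agent.H94.EP.c1 x = 1 := Real.smoothTransition.one_of_one_le (by linarith)

/-- The average of the cutoffs. -/
theorem cb_av (hL : 0 < L) (c : ℝ) (x : E3) : ∫⁻ b, ENNReal.ofReal (ph L c b * cb L b x ^ 2) ≤ ENNReal.ofReal (36 * L * A1 L c x) := by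
  have h1 : ∀ b, ENNReal.ofReal (ph L c b * cb L b x ^ 2) ≤ (Icc (x 2 - 2 * L) (x 2 + 2 * L)).indicator (fun _ => ENNReal.ofReal (9 * A1 L c x)) b := by
    intro b
    by_cases hb : b ∈ Icc (x 2 - 2 * L) (x 2 + 2 * L)
    · rw [indicator_of_mem hb]
      refine ENNReal.ofReal_le_ofReal ?_
      rcases lt_or_ge (rsq x) (1 / 8) with hr | hr
      · have e1 : A1 L c x = ph L c (x 2) := by unfold A1; rw [c1_one (by linarith)]; ring
        have e2 : ph L c b ≤ 9 * ph L c (x 2) := ph_cmp hL c (by rw [abs_le]; constructor <;> linarith [hb.1, hb.2])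
        have e3 : 0 ≤ ph L c b := by unfold ph; positivity
        have e4 : cb L b x ^ 2 ≤ 1 := pow_le_one₀ (cb_01 b x).1 (cb_01 b x).2
        rw [e1]
        exact (mul_le_of_le_one_right e3 e4).trans e2
      · rw [cb_z' hr]
        have : 0 ≤ A1 L c x := by
          unfold A1
          have : 0 ≤ ph L c (x 2) := by unfold ph; positivity
          positivity
        simp only [ne_eq, OfNat.ofNat_ne_zero, not_false_eq_true, zero_pow, mul_zero]
        positivity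
    · rw [indicator_of_notMem hb]
      have : cb L b x = 0 := by
        refine cb_z hL ?_
        by_contra h
        rw [not_lt, abs_le] at h
        exact hb ⟨by linarith [h.2], by linarith [h.1]⟩
      rw [this]; simp
  refine (lintegral_mono h1).trans ?_
  rw [lintegral_indicator measurableSet_Icc, setLIntegral_const, Real.volume_Icc, ← ENNReal.ofReal_mul']
  · refine ENNReal.ofReal_le_ofReal (le_of_eq ?_)
    ring
  · linarith

theorem PS_nn (H : Pf) (hp : Pr m r2 m0) (hL : 0 < L) (c : ℝ) (v : E3 → E3) : 0 ≤ PS m r2 m0 L c v := by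
  unfold PS
  refine mul_nonneg (by positivity) (integral_nonneg fun b => ?_)
  have h1 : 0 ≤ ph L c b := by unfold ph; positivity
  exact mul_nonneg h1 (integral_nonneg fun q => Ei_nn H hp q _)

/-- The fibre integral. -/
noncomputable def Kb (L c : ℝ) (O : E3 → ℝ) (b : ℝ) (x : E3) : ℝ := ph L c b * cb L b x ^ 2 * O x ^ 2

theorem Kb_m (w1 : Continuous (ph L c)) {O : E3 → ℝ} (hO : Continuous O) : Measurable (fun y : ℝ × E3 => ENNReal.ofReal (Kb L c O y.1 y.2)) := by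
  refine (Continuous.measurable ?_).ennreal_ofReal
  exact ((w1.comp continuous_fst).mul (cb_cont.pow 2)).mul ((hO.comp continuous_snd).pow 2)

theorem I0_fa (H : Pf) (hp : Pr m r2 m0) {a : ℝ → E3 → ℝ} {b : ℝ} {q : ℝ × ℝ} {t R : ℝ} (h : Bc R fun z => Fa L a b t (pt q z)) :
    I0 m r2 m0 L a b q t ≤ (∫ z, Fa L a b t (pt q z) ^ 2) / 2 := by
  rw [← toH_norm h.mem]
  exact Ei_le H hp q _

theorem Kb_1 (w2 : ∀ b, 0 ≤ ph L c b) (O : E3 → ℝ) (b : ℝ) (q : ℝ × ℝ) {R : ℝ} (h : Bc R fun z => Fa L (fun _ => O) b 0 (pt q z)) :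
    ENNReal.ofReal (ph L c b) * ENNReal.ofReal ((∫ z, Fa L (fun _ => O) b 0 (pt q z) ^ 2) / 2) =
      ENNReal.ofReal (1 / 2) * ∫⁻ z, ENNReal.ofReal (Kb L c O b (pt q z)) := by
  have s2 : Integrable (fun z => Fa L (fun _ => O) b 0 (pt q z) ^ 2) := h.mem.integrable_sq
  have e1 : ∀ z, Kb L c O b (pt q z) = ph L c b * Fa L (fun _ => O) b 0 (pt q z) ^ 2 := fun z => by unfold Kb Fa; ring
  simp only [e1]
  rw [← ofReal_integral_eq_lintegral_ofReal (s2.const_mul _) (Eventually.of_forall fun z => mul_nonneg (w2 b) (sq_nonneg _)),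
    integral_const_mul, ← ENNReal.ofReal_mul (w2 b), ← ENNReal.ofReal_mul (by norm_num)]
  congr 1; ring

theorem Kb_2 (w2 : ∀ b, 0 ≤ ph L c b) (H : Pf) (hp : Pr m r2 m0) {O : E3 → ℝ} (hO : Continuous O) {b : ℝ}
    (hB : ∀ q, Bc (|b| + 2 * L) fun z => Fa L (fun _ => O) b 0 (pt q z)) (hq : Integrable fun q => I0 m r2 m0 L (fun _ => O) b q 0) :
    ENNReal.ofReal (ph L c b * ∫ q, I0 m r2 m0 L (fun _ => O) b q 0) ≤ ENNReal.ofReal (1 / 2) * ∫⁻ x : E3, ENNReal.ofReal (Kb L c O b x) := by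
  have hcc : Continuous (fun x : E3 => cb L b x) := by
    have h1 := (cb_cont (L := L)).comp (f := fun x : E3 => (b, x)) (by fun_prop)
    exact h1
  have hmb : Measurable (fun x : E3 => ENNReal.ofReal (Kb L c O b x)) :=
    Measurable.ennreal_ofReal (Continuous.measurable ((continuous_const.mul (hcc.pow 2)).mul (hO.pow 2)))
  have e1 : ENNReal.ofReal (∫ q, I0 m r2 m0 L (fun _ => O) b q 0) = ∫⁻ q, ENNReal.ofReal (I0 m r2 m0 L (fun _ => O) b q 0) :=
    ofReal_integral_eq_lintegral_ofReal hq (Eventually.of_forall fun q => Ei_nn H hp q _)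
  calc ENNReal.ofReal (ph L c b * ∫ q, I0 m r2 m0 L (fun _ => O) b q 0)
      = ENNReal.ofReal (ph L c b) * ∫⁻ q, ENNReal.ofReal (I0 m r2 m0 L (fun _ => O) b q 0) := by rw [ENNReal.ofReal_mul (w2 b), e1]
    _ = ∫⁻ q, ENNReal.ofReal (ph L c b) * ENNReal.ofReal (I0 m r2 m0 L (fun _ => O) b q 0) :=
        (lintegral_const_mul' _ _ ENNReal.ofReal_ne_top).symm
    _ ≤ ∫⁻ q : ℝ × ℝ, ENNReal.ofReal (1 / 2) * ∫⁻ z, ENNReal.ofReal (Kb L c O b (pt q z)) := by
        refine lintegral_mono fun q => ?_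
        refine (mul_le_mul_right (ENNReal.ofReal_le_ofReal (I0_fa H hp (hB q))) _).trans ?_
        exact (Kb_1 w2 O b q (hB q)).le
    _ = ENNReal.ofReal (1 / 2) * ∫⁻ q : ℝ × ℝ, ∫⁻ z, ENNReal.ofReal (Kb L c O b (pt q z)) :=
        lintegral_const_mul' _ _ ENNReal.ofReal_ne_top
    _ = ENNReal.ofReal (1 / 2) * ∫⁻ x : E3, ENNReal.ofReal (Kb L c O b x) := by rw [tri hmb]

theorem Kb_3 (hL : 0 < L) (O : E3 → ℝ) (x : E3) : ∫⁻ b, ENNReal.ofReal (Kb L c O b x) ≤ ENNReal.ofReal (36 * L * (A1 L c x * O x ^ 2)) := by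
  have e : ∀ b, ENNReal.ofReal (Kb L c O b x) = ENNReal.ofReal (ph L c b * cb L b x ^ 2) * ENNReal.ofReal (O x ^ 2) := by
    intro b; rw [← ENNReal.ofReal_mul' (sq_nonneg _)]; rfl
  simp only [e]
  rw [lintegral_mul_const' _ _ ENNReal.ofReal_ne_top]
  refine (mul_le_mul_left (cb_av hL c x) _).trans (le_of_eq ?_)
  rw [← ENNReal.ofReal_mul' (sq_nonneg _)]; congr 1; ring

theorem Kb_4 (w1 : Continuous (ph L c)) (hL : 0 < L) {O : E3 → ℝ} (hO : Continuous O) (hi : Integrable fun x => A1 L c x * O x ^ 2) :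
    ENNReal.ofReal (1 / 2) * ∫⁻ b, ∫⁻ x : E3, ENNReal.ofReal (Kb L c O b x) ≤ ENNReal.ofReal (18 * L * ∫ x, A1 L c x * O x ^ 2) := by
  have hA : ∀ x, 0 ≤ A1 L c x * O x ^ 2 := fun x => by
    unfold A1
    have : 0 ≤ ph L c (x 2) := by unfold ph; positivity
    positivity
  rw [lintegral_lintegral_swap (Kb_m w1 hO).aemeasurable]
  refine (mul_le_mul_right (lintegral_mono fun x => Kb_3 hL O x) _).trans (le_of_eq ?_)
  rw [← ofReal_integral_eq_lintegral_ofReal (hi.const_mul _) (Eventually.of_forall fun x => mul_nonneg (by positivity) (hA x)),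
    integral_const_mul, ← ENNReal.ofReal_mul (by norm_num)]
  congr 1; ring

theorem PS_le (H : Pf) (hp : Pr m r2 m0) (hL : 1 ≤ L) (c : ℝ) {v : E3 → E3} (hv : Continuous (sO v)) {K : ℝ} (hK : ∀ x, |sO v x| ≤ K)
    (hi : Integrable fun x => A1 L c x * sO v x ^ 2) : PS m r2 m0 L c v ≤ 18 * NO L c v := by
  obtain ⟨w1, w2, w3⟩ := ph_facts hL c
  have hL' : 0 < L := by linarith
  have hK0 : 0 ≤ K := (abs_nonneg _).trans (hK 0)
  have hj : Ja 1 (fun _ => sO v) := ⟨(hv.comp continuous_snd).continuousOn, fun b _ => ⟨K, hK0, fun t _ x => hK x⟩⟩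
  have h01 : (0 : ℝ) ∈ Ico (0 : ℝ) 1 := ⟨le_rfl, one_pos⟩
  have hib := I0_ib H hp hL' hj
  have e0 : PS m r2 m0 L c v = (1 / L) * av (ph L c) (I0 m r2 m0 L (fun _ => sO v)) 0 := rfl
  have hq : ∀ b, Integrable (fun q => I0 m r2 m0 L (fun _ => sO v) b q 0) := by
    intro b
    obtain ⟨K', K0', hK'⟩ := hib.bd 0 one_pos
    refine Integrable.mono' (Sq_i.const_mul K') ?_ (Eventually.of_forall fun q => ?_)
    · have : Continuous fun q => I0 m r2 m0 L (fun _ => sO v) b q 0 := by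
        rw [← continuousOn_univ]
        exact hib.ct.comp (f := fun q : ℝ × ℝ => (b, q, (0:ℝ))) (by fun_prop) fun _ _ => h01
      exact this.aestronglyMeasurable
    · rcases lt_or_ge (sq2 q) (1 / 8) with hz | hz
      · rw [indicator_of_mem (Sq_mem hz), mul_one]; exact hK' 0 ⟨le_rfl, le_rfl⟩ b q
      · rw [hib.z _ _ _ hz, norm_zero]
        exact mul_nonneg K0' (indicator_nonneg (fun _ _ => zero_le_one) _)
  have hnn : ∀ b q, 0 ≤ I0 m r2 m0 L (fun _ => sO v) b q 0 := fun b q => Ei_nn H hp q _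
  have key : ENNReal.ofReal (av (ph L c) (I0 m r2 m0 L (fun _ => sO v)) 0) ≤ ENNReal.ofReal (18 * L * NO L c v) := by
    have hav : Integrable fun b => ph L c b * ∫ q, I0 m r2 m0 L (fun _ => sO v) b q 0 := by
      have h1 := (av_i w1 w2 w3 hib h01).integral_prod_left
      refine h1.congr (Eventually.of_forall fun b => ?_)
      simp only [integral_const_mul]
    unfold av
    rw [ofReal_integral_eq_lintegral_ofReal hav (Eventually.of_forall fun b => mul_nonneg (w2 b) (integral_nonneg (hnn b)))]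
    refine (lintegral_mono fun b => Kb_2 w2 H hp hv (fun q => Fa_bc hj hL' h01 b q le_rfl) (hq b)).trans ?_
    rw [lintegral_const_mul' _ _ ENNReal.ofReal_ne_top]
    exact Kb_4 w1 hL' hv hi
  have hNO : 0 ≤ NO L c v := by
    unfold NO
    refine integral_nonneg fun x => ?_
    have : 0 ≤ ph L c (x 2) := by unfold ph; positivity
    unfold A1; positivity
  have key' := (ENNReal.ofReal_le_ofReal_iff (by positivity)).1 key
  rw [e0, one_div, inv_mul_le_iff₀ hL']
  linarith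

end Pool.Agent.H16.TQ
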