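import Pool.Agent.H16.TQ.Av

/-! The functional `PS` along the flow: continuity and its derivative in time. -/

set_option autoImplicit false

open Set Filter Topology MeasureTheory
open scoped ContDiff InnerProductSpace

namespace Pool.Agent.H16.TQ

open Pool.Agent.H16 Pool.Agent.H87.NS Pool.Agent.H72.CC Pool.Agent.H16.TU Pool.Agent.H94.EP Pool.Agent.H42.TQ Pool.Agent.H37.EP

variable {T : ℝ} {L m r2 m0 : ℝ} {a a' : ℝ → E3 → ℝ}

/-- The averaged envelope of a localised function on one fibre. -/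
noncomputable def I0 (m r2 m0 L : ℝ) (a : ℝ → E3 → ℝ) (b : ℝ) (q : ℝ × ℝ) (t : ℝ) : ℝ := Ei m r2 m0 q (fa L a b q t)

/-- Its rate. -/
noncomputable def I1 (m r2 m0 L : ℝ) (a a' : ℝ → E3 → ℝ) (b : ℝ) (q : ℝ × ℝ) (t : ℝ) : ℝ := dEi m r2 m0 q (fa L a b q t) (fa L a' b q t)

theorem I0_ib (H : Pf) (hp : Pr m r2 m0) (hL : 0 < L) (h : Ja T a) : Ib T (I0 m r2 m0 L a) := by
  refine ⟨fun y hy => ?_, fun b' hb' => ?_, fun b q t hq => ?_⟩
  · exact Ei_tend H hp ((by fun_prop : Continuous fun y : ℝ × (ℝ × ℝ) × ℝ => y.2.1).continuousWithinAt) (fa_ct h hL y hy)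
  · obtain ⟨K, K0, hK⟩ := h.bd b' hb'
    refine ⟨4 * L * K ^ 2, by positivity, fun t ht b q => ?_⟩
    have h1 := (ei_i H hp q (fa L a b q t)).2
    have h2 := fa_norm h hL ⟨ht.1, lt_of_le_of_lt ht.2 hb'⟩ (hK t ht) b q
    have h3 := sq_nonneg ‖fa L a b q t‖
    unfold I0; linarith
  · have h1 := (ei_i H hp q (fa L a b q t)).2
    unfold I0
    rw [fa_z hq] at h1 ⊢
    rw [← abs_eq_zero]
    refine le_antisymm ?_ (abs_nonneg _)
    simpa using h1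

theorem I1_ib (H : Pf) (hp : Pr m r2 m0) (hL : 0 < L) (h : Ja T a) (h' : Ja T a') : Ib T (I1 m r2 m0 L a a') := by
  refine ⟨fun y hy => ?_, fun b' hb' => ?_, fun b q t hq => ?_⟩
  · exact dEi_tend H hp ((by fun_prop : Continuous fun y : ℝ × (ℝ × ℝ) × ℝ => y.2.1).continuousWithinAt) (fa_ct h hL y hy) (fa_ct h' hL y hy)
  · obtain ⟨K, K0, hK⟩ := h.bd b' hb'
    obtain ⟨K', K0', hK'⟩ := h'.bd b' hb'
    refine ⟨4 * L * K ^ 2 + 4 * L * K' ^ 2, by positivity, fun t ht b q => ?_⟩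
    have ht' : t ∈ Ico 0 T := ⟨ht.1, lt_of_le_of_lt ht.2 hb'⟩
    have h1 := (di_i H hp q (fa L a b q t) (fa L a' b q t)).2
    have h2 := fa_norm h hL ht' (hK t ht) b q
    have h3 := fa_norm h' hL ht' (hK' t ht) b q
    have h4 := sq_nonneg (‖fa L a b q t‖ - ‖fa L a' b q t‖)
    have h5 := sq_nonneg ‖fa L a b q t‖
    have h6 := sq_nonneg ‖fa L a' b q t‖
    unfold I1; nlinarith
  · have h1 := (di_i H hp q (fa L a b q t) (fa L a' b q t)).2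
    unfold I1
    rw [fa_z hq] at h1 ⊢
    rw [← abs_eq_zero]
    refine le_antisymm ?_ (abs_nonneg _)
    simpa using h1

theorem Ib.t {I : ℝ → ℝ × ℝ → ℝ → ℝ} (h : Ib T I) (b : ℝ) (q : ℝ × ℝ) : ContinuousOn (fun t => I b q t) (Ico 0 T) :=
  h.ct.comp (f := fun s : ℝ => (b, q, s)) (by fun_prop) fun _ hs => hs

theorem I_ftc (H : Pf) (hp : Pr m r2 m0) (hL : 0 < L) (h : Ja T a) (h' : Ja T a') (hd : Dt T a a') {t₁ t₂ : ℝ} (h1 : 0 ≤ t₁)
    (h12 : t₁ ≤ t₂) (h2 : t₂ < T) (b : ℝ) (q : ℝ × ℝ) :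
    I0 m r2 m0 L a b q t₂ = I0 m r2 m0 L a b q t₁ + ∫ s in t₁..t₂, I1 m r2 m0 L a a' b q s := by
  have hsub : Icc t₁ t₂ ⊆ Ico 0 T := fun s hs => ⟨h1.trans hs.1, lt_of_le_of_lt hs.2 h2⟩
  have e := intervalIntegral.integral_eq_sub_of_hasDerivAt_of_le (f := fun t => I0 m r2 m0 L a b q t)
    (f' := fun t => I1 m r2 m0 L a a' b q t) h12 (((I0_ib H hp hL h).t b q).mono hsub) (fun t ht => ?_) ?_
  · rw [e]; ring
  · have h3 := fa_der h h' hd hL b q h2 (t := t) ⟨lt_of_le_of_lt h1 ht.1, ht.2⟩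
    exact (Ei_fd H hp q (fa L a b q t)).comp_hasDerivAt t h3
  · refine (((I1_ib H hp hL h h').t b q).mono ?_).intervalIntegrable
    rw [uIcc_of_le h12]; exact hsub

theorem ph_facts {L : ℝ} (hL : 1 ≤ L) (c : ℝ) : Continuous (ph L c) ∧ (∀ b, 0 ≤ ph L c b) ∧ Integrable (ph L c) :=
  ⟨(P_sm L c 0).1.continuous, fun b => by unfold ph; positivity, ph_i (by linarith) c⟩

variable {u : ℝ → E3 → E3}

theorem PS_av (c t : ℝ) : PS m r2 m0 L c (u t) = (1 / L) * av (ph L c) (I0 m r2 m0 L fun t => sO (u t)) t := rfl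

theorem RP_av (c t : ℝ) : RP m r2 m0 L c (u t) = (1 / L) * av (ph L c) (I1 m r2 m0 L (fun t => sO (u t)) fun t => tO (u t)) t := rfl

theorem PS_ct (H : Pf) (hp : Pr m r2 m0) (hL : 1 ≤ L) (hO : Ja T fun t => sO (u t)) (c : ℝ) :
    ContinuousOn (fun t => PS m r2 m0 L c (u t)) (Ico 0 T) := by
  obtain ⟨w1, w2, w3⟩ := ph_facts hL c
  exact (av_ct w1 w2 w3 (I0_ib H hp (by linarith) hO)).const_mul _

theorem RP_ct (H : Pf) (hp : Pr m r2 m0) (hL : 1 ≤ L) (hO : Ja T fun t => sO (u t)) (hO' : Ja T fun t => tO (u t)) (c : ℝ) :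
    ContinuousOn (fun t => RP m r2 m0 L c (u t)) (Ico 0 T) := by
  obtain ⟨w1, w2, w3⟩ := ph_facts hL c
  exact (av_ct w1 w2 w3 (I1_ib H hp (by linarith) hO hO')).const_mul _

theorem PS_ftc (H : Pf) (hp : Pr m r2 m0) (hL : 1 ≤ L) (hO : Ja T fun t => sO (u t)) (hO' : Ja T fun t => tO (u t))
    (hd : Dt T (fun t => sO (u t)) fun t => tO (u t)) (c : ℝ) {t₁ t₂ : ℝ} (h1 : 0 ≤ t₁) (h12 : t₁ ≤ t₂) (h2 : t₂ < T) :
    PS m r2 m0 L c (u t₂) = PS m r2 m0 L c (u t₁) + ∫ s in t₁..t₂, RP m r2 m0 L c (u s) := by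
  obtain ⟨w1, w2, w3⟩ := ph_facts hL c
  have hL' : 0 < L := by linarith
  have e := av_ftc w1 w2 w3 (I0_ib H hp hL' hO) (I1_ib H hp hL' hO hO') h1 h12 h2 fun b q => I_ftc H hp hL' hO hO' hd h1 h12 h2 b q
  simp only [PS_av, RP_av, intervalIntegral.integral_const_mul]
  rw [e]; ring

end Pool.Agent.H16.TQ
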