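import Pool.Agent.H42.TQ.T0

/-! Transport, first order expansions: the third term (MP_09540e_TQ, T2). -/

set_option autoImplicit false

open Set Filter Topology MeasureTheory
open scoped ContDiff InnerProductSpace

namespace Pool.Agent.H16.TQ

open Pool.Agent.H16 Pool.Agent.H87.NS Pool.Agent.H72.CC Pool.Agent.H16.TU Pool.Agent.H94.EP Pool.Agent.H87.EP
  Pool.Agent.H88.TQ Pool.Agent.H42.TQ

theorem jmem {f : ℝ → ℝ} (hf : Continuous f) (a b : ℝ) : MemLp ((Icc a b).indicator f) 2 volume := by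
  rw [memLp_indicator_iff_restrict measurableSet_Icc]
  obtain ⟨C, hC⟩ := (isCompact_Icc (a := a) (b := b)).exists_bound_of_continuousOn hf.continuousOn
  exact MemLp.of_bound hf.aestronglyMeasurable C
    ((ae_restrict_iff' measurableSet_Icc).2 (ae_of_all _ fun x hx => hC x hx))

theorem jnorm {f : ℝ → ℝ} (hf : Continuous f) {a b : ℝ} (hab : a ≤ b) :
    ‖((jmem hf a b).toLp _ : Hz)‖ = √(∫ z in a..b, f z ^ 2) := by
  have h1 : ‖((jmem hf a b).toLp _ : Hz)‖ ^ 2 = ∫ z in a..b, f z ^ 2 := by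
    rw [← real_inner_self_eq_norm_sq, L2.inner_def, intervalIntegral.integral_of_le hab,
      ← integral_Icc_eq_integral_Ioc, ← integral_indicator measurableSet_Icc]
    refine integral_congr_ae ?_
    filter_upwards [(jmem hf a b).coeFn_toLp] with z hz
    rw [hz]
    by_cases h : z ∈ Icc a b
    · simp [indicator_of_mem h, pow_two]
    · simp [indicator_of_notMem h]
  rw [← h1, Real.sqrt_sq (norm_nonneg _)]

theorem jadd {f g : ℝ → ℝ} (hf : Continuous f) (hg : Continuous g) {a b : ℝ} (hab : a ≤ b) :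
    √(∫ z in a..b, (f z + g z) ^ 2) ≤ √(∫ z in a..b, f z ^ 2) + √(∫ z in a..b, g z ^ 2) := by
  have h0 := jnorm (hf.add hg) hab
  simp only [Pi.add_apply] at h0
  rw [← h0, ← jnorm hf hab, ← jnorm hg hab]
  have e1 : ((jmem (hf.add hg) a b).toLp _ : Hz) = (jmem hf a b).toLp _ + (jmem hg a b).toLp _ := by
    apply Lp.ext
    filter_upwards [(jmem (hf.add hg) a b).coeFn_toLp, (jmem hf a b).coeFn_toLp, (jmem hg a b).coeFn_toLp,
      Lp.coeFn_add ((jmem hf a b).toLp _ : Hz) ((jmem hg a b).toLp _)] with z h1 h2 h3 h4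
    rw [h1, h4, Pi.add_apply, h2, h3, indicator_add']
    rfl
  rw [e1]
  exact norm_add_le _ _

theorem jbd {f : ℝ → ℝ} {a b M : ℝ} (hab : a ≤ b) (hM : 0 ≤ M) (h : ∀ z ∈ Icc a b, |f z| ≤ M) (hf : Continuous f) :
    √(∫ z in a..b, f z ^ 2) ≤ M * √(b - a) := by
  have h1 : ∫ z in a..b, f z ^ 2 ≤ ∫ _ in a..b, M ^ 2 := by
    refine intervalIntegral.integral_mono_on hab ((hf.pow 2).intervalIntegrable _ _)
      (continuous_const.intervalIntegrable _ _) fun z hz => ?_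
    rw [← sq_abs]
    exact pow_le_pow_left₀ (abs_nonneg _) (h z hz) 2
  rw [intervalIntegral.integral_const, smul_eq_mul] at h1
  calc √(∫ z in a..b, f z ^ 2) ≤ √((b - a) * M ^ 2) := Real.sqrt_le_sqrt h1
    _ = M * √(b - a) := by rw [mul_comm, Real.sqrt_mul (sq_nonneg _), Real.sqrt_sq hM]

/-- Cauchy-Schwarz on the support. -/
theorem jcs {p : Hz} {a b : ℝ} (hab : a ≤ b) (hp : Sz a b p) {f w : ℝ → ℝ} (hf : Continuous f) (hw : Continuous w)
    (hw1 : ∀ z, |w z| ≤ 1) : Integrable (fun z => p z * f z * w z) ∧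
      |∫ z, p z * f z * w z| ≤ ‖p‖ * √(∫ z in a..b, f z ^ 2) := by
  have hfw : Continuous fun z => f z * w z := hf.mul hw
  obtain ⟨x, hx⟩ : ∃ x : Hz, x = (jmem hfw a b).toLp _ := ⟨_, rfl⟩
  have e1 : (fun z => ⟪p z, x z⟫_ℝ) =ᵐ[volume] fun z => p z * f z * w z := by
    have h0 := (jmem hfw a b).coeFn_toLp
    rw [← hx] at h0
    filter_upwards [h0, hp] with z h1 h2
    rw [h1]
    by_cases h : z ∈ Icc a b
    · rw [indicator_of_mem h]
      simp only [RCLike.inner_apply, conj_trivial]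
      ring
    · rw [indicator_of_notMem h, h2 h]
      simp
  have h3 : Integrable (fun z => ⟪p z, x z⟫_ℝ) := L2.integrable_inner p x
  refine ⟨h3.congr e1, ?_⟩
  rw [← integral_congr_ae e1, ← L2.inner_def]
  refine (abs_real_inner_le_norm p x).trans (mul_le_mul_of_nonneg_left ?_ (norm_nonneg _))
  rw [hx, jnorm hfw hab]
  refine Real.sqrt_le_sqrt (intervalIntegral.integral_mono_on hab ((hfw.pow 2).intervalIntegrable _ _)
      ((hf.pow 2).intervalIntegrable _ _) fun z _ => ?_)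
  rw [mul_pow]
  have h4 : w z ^ 2 ≤ 1 := by
    rw [← sq_abs]
    exact pow_le_one₀ (abs_nonneg _) (hw1 z)
  exact mul_le_of_le_one_right (sq_nonneg _) h4

/-- Cutting off. -/
theorem jloc {ψ : E3 → ℝ} (hψ : ContDiff ℝ ∞ ψ) {R : ℝ} (hR : 0 < R) (i : Fin 3) : ∃ G : E3 → ℝ, Cs G ∧
    (∀ x, ‖x‖ < R → G x = ψ x) ∧ ∀ x, ‖x‖ < R → pd i G x = pd i ψ x := by
  let φ : ContDiffBump (0 : E3) := ⟨R, R + 1, hR, by linarith⟩
  have h1 : ∀ x : E3, ‖x‖ < R → φ x * ψ x = ψ x := by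
    intro x hx
    rw [φ.one_of_mem_closedBall (by simpa using hx.le), one_mul]
  refine ⟨fun x => φ x * ψ x, ⟨φ.contDiff.mul hψ, φ.hasCompactSupport.mul_right⟩, h1, fun x hx => ?_⟩
  unfold pd
  have h2 : (fun x => φ x * ψ x) =ᶠ[𝓝 x] ψ := by
    filter_upwards [(isOpen_lt continuous_norm continuous_const).mem_nhds hx] with y hy
    exact h1 y hy
  rw [h2.fderiv_eq]

theorem sq2_sub {i : Fin 3} {d : ℝ × ℝ} (h : Dir i d) (q : ℝ × ℝ) (s : ℝ) :
    sq2 (q - s • d) = sq2 q - 2 * s * pt q 0 i + s ^ 2 := by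
  rcases h with ⟨rfl, rfl⟩ | ⟨rfl, rfl⟩
  · rw [pt_0]
    simp only [sq2, Prod.fst_sub, Prod.snd_sub, Prod.smul_fst, Prod.smul_snd, smul_eq_mul]
    ring
  · rw [pt_1]
    simp only [sq2, Prod.fst_sub, Prod.snd_sub, Prod.smul_fst, Prod.smul_snd, smul_eq_mul]
    ring

theorem pt_sub {i : Fin 3} {d : ℝ × ℝ} (h : Dir i d) (q : ℝ × ℝ) (s z : ℝ) :
    pt (q - s • d) z = pt q z + (-s) • e i := by
  rw [← pt_dir h, sub_eq_add_neg, neg_smul]

theorem pt_abs (q : ℝ × ℝ) {i : Fin 3} {d : ℝ × ℝ} (h : Dir i d) : pt q 0 i ^ 2 ≤ sq2 q := by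
  rcases h with ⟨rfl, rfl⟩ | ⟨rfl, rfl⟩
  · rw [pt_0]
    unfold sq2
    nlinarith [sq_nonneg q.2]
  · rw [pt_1]
    unfold sq2
    nlinarith [sq_nonneg q.1]

/-- First order expansion of a fibre. -/
theorem jfib {F : E3 → ℝ} (hF : Cs F) {i : Fin 3} {d : ℝ × ℝ} (h : Dir i d) : ∃ C, 0 ≤ C ∧ ∀ (q : ℝ × ℝ) (s : ℝ),
    ‖fib F (q - s • d) - fib F q + s • fib (pd i F) q‖ ≤ C * s ^ 2 := by
  obtain ⟨R, hR, h1, -⟩ := hF.box
  obtain ⟨R', hR', h1', -⟩ := (hF.pd i).box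
  obtain ⟨M, hM, h2⟩ := hF.taylor i
  refine ⟨√(2 * max R R') * M, by positivity, fun q s => ?_⟩
  have e1 : fib F (q - s • d) - fib F q + s • fib (pd i F) q =
      fib F (q - s • d) - fib (fun x => F x + (-s) * pd i F x) q := by
    rw [fib_add hF ((hF.pd i).smul _), fib_smul _ (hF.pd i), neg_smul]
    abel
  rw [e1, mul_assoc]
  refine fib_dist hF (hF.add ((hF.pd i).smul _)) (by positivity) (by positivity) _ _ (fun z hz => ?_) (fun z => ?_)
  · rw [h1 _ z ((le_max_left _ _).trans hz), h1 _ z ((le_max_left _ _).trans hz), h1' _ z ((le_max_right _ _).trans hz)]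
    ring
  · rw [pt_sub h]
    have := h2 (pt q z) (-s)
    rwa [sub_sub, neg_sq] at this

theorem jcont {ψ : E3 → ℝ} (h : Continuous ψ) (q : ℝ × ℝ) : Continuous fun z => ψ (pt q z) :=
  h.comp (pt_cont' continuous_const continuous_id)

theorem pd_sm {ψ : E3 → ℝ} (h : ContDiff ℝ ∞ ψ) (i : Fin 3) : ContDiff ℝ ∞ (pd i ψ) := by
  have h1 : ContDiff ℝ ∞ (fderiv ℝ ψ) := h.fderiv_right (by simp)
  exact h1.clm_apply contDiff_const

theorem jNb {ψ : E3 → ℝ} (hψ : ContDiff ℝ ∞ ψ) (b : ℝ) {l : ℝ} (hl : 0 < l) {i : Fin 3} {d : ℝ × ℝ} (h : Dir i d)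
    (A : ℝ) : ∃ C, 0 ≤ C ∧ ∀ (q : ℝ × ℝ) (s : ℝ), sq2 q ≤ A → |s| ≤ 1 →
      Nb b l ψ (q - s • d) ≤ Nb b l ψ q + C * |s| ∧
      √(∫ z in (b - l)..(b + l), (ψ (pt q z) - ψ (pt (q - s • d) z)) ^ 2) ≤ |s| * Nb b l (pd i ψ) q + C * s ^ 2 := by
  obtain ⟨K, hK⟩ : ∃ K, K = |A| + (|b| + l) ^ 2 := ⟨_, rfl⟩
  have hK0 : 0 ≤ K := by rw [hK]; positivity
  obtain ⟨G, hG, h1, h2⟩ := jloc hψ (R := K + 2) (by linarith) i
  obtain ⟨M, hM, h3⟩ := hG.taylor i
  obtain ⟨M', hM', h4⟩ := hG.lip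
  have hei : ‖(e i : E3)‖ = 1 := by
    unfold e
    simp
  have hab : b - l ≤ b + l := by linarith
  have hw : √(b + l - (b - l)) = √(2 * l) := by congr 1; ring
  refine ⟨(M + M') * √(2 * l), by positivity, fun q s hq hs => ?_⟩
  have hn : ∀ z ∈ Icc (b - l) (b + l), ‖pt q z‖ < K + 1 := by
    intro z hz
    have h5 : ‖pt q z‖ ^ 2 ≤ K := by
      rw [pt_norm, hK]
      have h6 : |z| ≤ |b| + l := by
        rw [abs_le]
        have := neg_abs_le b
        have := le_abs_self b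
        constructor <;> linarith [hz.1, hz.2]
      have h7 : z ^ 2 ≤ (|b| + l) ^ 2 := by
        rw [← sq_abs z]
        exact pow_le_pow_left₀ (abs_nonneg _) h6 2
      linarith [le_abs_self A]
    nlinarith only [norm_nonneg (pt q z), hK0, h5]
  have hn' : ∀ z ∈ Icc (b - l) (b + l), ‖pt (q - s • d) z‖ < K + 2 := by
    intro z hz
    rw [pt_sub h]
    refine (norm_add_le _ _).trans_lt ?_
    rw [norm_smul, hei, mul_one, norm_neg, Real.norm_eq_abs]
    linarith [hn z hz]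
  have c1 := jcont hψ.continuous q
  have c2 := jcont hψ.continuous (q - s • d)
  have c3 := jcont (pd_sm hψ i).continuous q
  constructor
  · have h5 : Nb b l ψ (q - s • d) ≤ Nb b l ψ q +
        √(∫ z in (b - l)..(b + l), (ψ (pt (q - s • d) z) - ψ (pt q z)) ^ 2) := by
      have := jadd (f := fun z => ψ (pt q z)) (g := fun z => ψ (pt (q - s • d) z) - ψ (pt q z)) c1 (c2.sub c1) hab
      simp only [add_sub_cancel] at this
      exact this
    have h6 := jbd (f := fun z => ψ (pt (q - s • d) z) - ψ (pt q z)) (M := M' * |s|) hab (by positivity)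
      (fun z hz => by
        show |ψ (pt (q - s • d) z) - ψ (pt q z)| ≤ _
        rw [← h1 _ (hn' z hz), ← h1 _ ((hn z hz).trans (by linarith))]
        refine (h4 _ _).trans (le_of_eq ?_)
        rw [pt_sub h, add_sub_cancel_left, norm_smul, hei, mul_one, norm_neg, Real.norm_eq_abs]) (c2.sub c1)
    rw [hw] at h6
    have h7 : 0 ≤ M * √(2 * l) * |s| := by positivity
    calc _ ≤ Nb b l ψ q + M' * |s| * √(2 * l) := h5.trans (by simpa using h6)
      _ ≤ _ := by linarith only [h7]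
  · have h5 : √(∫ z in (b - l)..(b + l), (ψ (pt q z) - ψ (pt (q - s • d) z)) ^ 2) ≤
        √(∫ z in (b - l)..(b + l), (s * pd i ψ (pt q z)) ^ 2) +
        √(∫ z in (b - l)..(b + l), (ψ (pt q z) - ψ (pt (q - s • d) z) - s * pd i ψ (pt q z)) ^ 2) := by
      have := jadd (f := fun z => s * pd i ψ (pt q z)) (g := fun z => ψ (pt q z) - ψ (pt (q - s • d) z) -
        s * pd i ψ (pt q z)) (c3.const_mul s) ((c1.sub c2).sub (c3.const_mul s)) hab
      simp only [add_sub_cancel] at this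
      exact this
    have h6 := jbd (f := fun z => ψ (pt q z) - ψ (pt (q - s • d) z) - s * pd i ψ (pt q z)) (M := M * s ^ 2) hab
      (by positivity) (fun z hz => by
        show |ψ (pt q z) - ψ (pt (q - s • d) z) - s * pd i ψ (pt q z)| ≤ _
        rw [← h1 _ (hn' z hz), ← h1 _ ((hn z hz).trans (by linarith)), ← h2 _ ((hn z hz).trans (by linarith)),
          pt_sub h]
        have h8 := h3 (pt q z) (-s)
        rw [neg_sq] at h8
        rw [← abs_neg]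
        refine le_trans (le_of_eq ?_) h8
        congr 1
        ring) ((c1.sub c2).sub (c3.const_mul s))
    rw [hw] at h6
    have h7 : √(∫ z in (b - l)..(b + l), (s * pd i ψ (pt q z)) ^ 2) = |s| * Nb b l (pd i ψ) q := by
      simp only [mul_pow]
      rw [intervalIntegral.integral_const_mul, Real.sqrt_mul (sq_nonneg s), Real.sqrt_sq_eq_abs]
      rfl
    rw [h7] at h5
    have h9 : 0 ≤ M' * √(2 * l) * s ^ 2 := by positivity
    calc _ ≤ |s| * Nb b l (pd i ψ) q + M * s ^ 2 * √(2 * l) := h5.trans (by simpa using h6)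
      _ ≤ _ := by linarith only [h9]

theorem Nb_cont {ψ : E3 → ℝ} (h : Continuous ψ) (b l : ℝ) : Continuous (Nb b l ψ) := by
  unfold Nb
  refine Real.continuous_sqrt.comp ?_
  refine intervalIntegral.continuous_parametric_intervalIntegral_of_continuous' ?_ _ _
  exact (h.comp pt_cont).pow 2

theorem Nb_nn (b l : ℝ) (ψ : E3 → ℝ) (q : ℝ × ℝ) : 0 ≤ Nb b l ψ q := Real.sqrt_nonneg _

/-- The error density. -/
noncomputable def erx (i : Fin 3) (N r2 b l : ℝ) (F θ : E3 → ℝ) (q : ℝ × ℝ) : ℝ :=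
  ‖gq N r2 F q‖ * Nb b l (pd i (pd 2 θ)) q +
    Nb b l (pd 2 θ) q * (‖fib (pd i F) q‖ + 2 * |pt q 0 i| / (sq2 q + r2) * ‖fib F q‖)

theorem sq2_cont : Continuous sq2 := by
  unfold sq2
  fun_prop

theorem sq2_nn (q : ℝ × ℝ) : 0 ≤ sq2 q := by
  unfold sq2
  positivity

theorem sq2_cpt (A : ℝ) : IsCompact {q : ℝ × ℝ | sq2 q ≤ A} := by
  refine Metric.isCompact_of_isClosed_isBounded (isClosed_le sq2_cont continuous_const) ?_
  rw [Metric.isBounded_iff_subset_closedBall (0 : ℝ × ℝ)]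
  refine ⟨|A| + 1, fun q hq => ?_⟩
  rw [mem_ofPred_eq] at hq
  unfold sq2 at hq
  rw [mem_closedBall_zero_iff, Prod.norm_def, max_le_iff, Real.norm_eq_abs, Real.norm_eq_abs]
  have h0 := le_abs_self A
  have h1 := abs_nonneg A
  constructor
  · refine abs_le_of_sq_le_sq ?_ (by positivity)
    nlinarith [sq_nonneg q.2]
  · refine abs_le_of_sq_le_sq ?_ (by positivity)
    nlinarith [sq_nonneg q.1]

theorem erx_cs {N r2 b l : ℝ} (hN : 0 < N) (hr : 0 < r2) {F θ : E3 → ℝ} (hF : Cs F)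
    (hs : ContDiff ℝ ∞ θ) (i : Fin 3) :
    Continuous (erx i N r2 b l F θ) ∧ HasCompactSupport (erx i N r2 b l F θ) := by
  constructor
  · unfold erx
    have h1 := (vq_cont hN hr hF).2.1
    have h2 := Nb_cont (pd_sm (pd_sm hs 2) i).continuous b l
    have h3 := Nb_cont (pd_sm hs 2).continuous b l
    have h4 := fib_cont hF
    have h5 := fib_cont (hF.pd i)
    have h6 : Continuous fun q : ℝ × ℝ => pt q 0 i :=
      (EuclideanSpace.proj i).continuous.comp (pt_cont' continuous_id continuous_const)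
    have h7 : Continuous fun q : ℝ × ℝ => 2 * |pt q 0 i| / (sq2 q + r2) :=
      (continuous_const.mul h6.abs).div (sq2_cont.add continuous_const) fun q => by
        have := sq2_nn q
        positivity
    exact (h1.norm.mul h2).add (h3.mul (h5.norm.add (h7.mul h4.norm)))
  · obtain ⟨A, hA⟩ := fib_out hF
    obtain ⟨A', hA'⟩ := fib_out (hF.pd i)
    refine HasCompactSupport.intro (sq2_cpt (max A A')) fun q hq => ?_
    rw [mem_ofPred_eq, not_le] at hq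
    have h1 := hA q ((le_max_left _ _).trans hq.le)
    have h2 := hA' q ((le_max_right _ _).trans hq.le)
    unfold erx
    rw [(vq_out hN hr h1).2.1, h1, h2]
    simp

theorem erx_nn {N r2 b l : ℝ} (hr : 0 < r2) (F θ : E3 → ℝ) (i : Fin 3) (q : ℝ × ℝ) : 0 ≤ erx i N r2 b l F θ q := by
  have h1 := sq2_nn q
  have h2 := Nb_nn b l (pd i (pd 2 θ)) q
  have h3 := Nb_nn b l (pd 2 θ) q
  unfold erx
  positivity

theorem Sz_sub {a b : ℝ} {p p' : Hz} (h : Sz a b p) (h' : Sz a b p') : Sz a b (p - p') := by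
  filter_upwards [h, h', Lp.coeFn_sub p p'] with z h1 h2 h3 h4
  rw [h3, Pi.sub_apply, h1 h4, h2 h4, sub_zero]

theorem jsplit {a b : ℝ} (hab : a ≤ b) {p p' : Hz} (hp : Sz a b p) (hp' : Sz a b p') {f f' w : ℝ → ℝ}
    (hf : Continuous f) (hf' : Continuous f') (hw : Continuous w) (hw1 : ∀ z, |w z| ≤ 1) :
    |∫ z, (p z * f z - p' z * f' z) * w z| ≤ ‖p - p'‖ * √(∫ z in a..b, f' z ^ 2) +
      ‖p‖ * √(∫ z in a..b, (f z - f' z) ^ 2) := by
  have h1 := jcs hab (Sz_sub hp hp') hf' hw hw1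
  have h2 := jcs (f := fun z => f z - f' z) hab hp (hf.sub hf') hw hw1
  have e1 : (∫ z, (p z * f z - p' z * f' z) * w z) =
      (∫ z, (p - p') z * f' z * w z) + ∫ z, p z * (f z - f' z) * w z := by
    rw [← integral_add h1.1 h2.1]
    refine integral_congr_ae ?_
    filter_upwards [Lp.coeFn_sub p p'] with z hz
    rw [hz, Pi.sub_apply]
    ring
  rw [e1]
  exact (abs_add_le _ _).trans (add_le_add h1.2 h2.2)

theorem jratio {N r2 : ℝ} (hN : 0 < N) (hr : 0 < r2) {i : Fin 3} {d : ℝ × ℝ} (h : Dir i d) (q : ℝ × ℝ) (s : ℝ) :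
    |cq N r2 q / cq N r2 (q - s • d) - 1| ≤ |s| * (2 * |pt q 0 i| / (sq2 q + r2)) + s ^ 2 / r2 := by
  have h1 := sq2_nn q
  have h2 := sq2_nn (q - s • d)
  have h3 : 0 < sq2 q + r2 := by linarith
  have h4 : 0 < sq2 (q - s • d) + r2 := by linarith
  have e1 : cq N r2 q / cq N r2 (q - s • d) - 1 = (- (s * (2 * pt q 0 i)) + s ^ 2) / (sq2 q + r2) := by
    unfold cq
    rw [sq2_sub h] at h4 ⊢
    field_simp
    ring
  rw [e1, abs_div, abs_of_pos h3]
  have h5 : |-(s * (2 * pt q 0 i)) + s ^ 2| ≤ |s| * (2 * |pt q 0 i|) + s ^ 2 := by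
    refine (abs_add_le _ _).trans ?_
    rw [abs_neg, abs_mul, abs_mul, abs_two, abs_of_nonneg (sq_nonneg s)]
  calc |-(s * (2 * pt q 0 i)) + s ^ 2| / (sq2 q + r2) ≤ (|s| * (2 * |pt q 0 i|) + s ^ 2) / (sq2 q + r2) := by gcongr
    _ = |s| * (2 * |pt q 0 i| / (sq2 q + r2)) + s ^ 2 / (sq2 q + r2) := by ring
    _ ≤ _ := by
      gcongr
      linarith

/-- The arithmetic of the pointwise estimate. -/
theorem jarith {s f0 f0' f1 κ k n n' ν g x y D C1 C4 M r : ℝ} (hs : 0 ≤ s) (hs1 : s ≤ 1) (hr : 0 < r) (hf0 : 0 ≤ f0)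
    (hf1 : 0 ≤ f1) (hκ : 0 ≤ κ) (hg : 0 ≤ g) (hC1 : 0 ≤ C1) (hC4 : 0 ≤ C4) (hn' : 0 ≤ n') (hf0' : 0 ≤ f0')
    (h0 : f0 ≤ M) (h1 : f1 ≤ M) (h2 : κ ≤ M) (h3 : n ≤ M) (hgf : g ≤ f0) (hD : D ≤ s * f1 + C1 * s ^ 2)
    (hD' : f0' ≤ f0 + D) (hk : k ≤ s * κ + s ^ 2 / r) (hxx : x ≤ D + k * f0')
    (hnn : n' ≤ n + C4 * s) (hyy : y ≤ s * ν + C4 * s ^ 2) :
    x * n' + g * y ≤ s * (g * ν + n * (f1 + κ * f0)) + ((C1 + M * (M + C1) + r⁻¹ * (2 * M + C1)) * M +
      C4 * (M + M * M) + (C1 + M * (M + C1) + r⁻¹ * (2 * M + C1)) * C4 + C4 * M) * s ^ 2 := by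
  have hM : 0 ≤ M := hf0.trans h0
  have hri : 0 < r⁻¹ := inv_pos.2 hr
  have hs2 : 0 ≤ s ^ 2 := sq_nonneg s
  have hss : s ^ 2 ≤ s := by
    have := mul_le_mul_of_nonneg_left hs1 hs
    rw [mul_one] at this
    rw [pow_two]
    exact this
  have a1 : f0' ≤ f0 + s * (M + C1) := by
    have b1 : s * f1 ≤ s * M := mul_le_mul_of_nonneg_left h1 hs
    have b2 : C1 * s ^ 2 ≤ C1 * s := mul_le_mul_of_nonneg_left hss hC1
    have b3 : s * (M + C1) = s * M + C1 * s := by ring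
    rw [b3]
    linarith
  have a2 : k * f0' ≤ (s * κ + s ^ 2 * r⁻¹) * (f0 + s * (M + C1)) := by
    rw [div_eq_mul_inv] at hk
    exact mul_le_mul hk a1 hf0' (by positivity)
  have a3 : (s * κ + s ^ 2 * r⁻¹) * (f0 + s * (M + C1)) ≤ s * (κ * f0) + s ^ 2 * (M * (M + C1) + r⁻¹ * (2 * M + C1)) := by
    have b1 : s ^ 2 * (κ * (M + C1)) ≤ s ^ 2 * (M * (M + C1)) := by gcongr
    have b2 : s ^ 2 * r⁻¹ * (f0 + s * (M + C1)) ≤ s ^ 2 * r⁻¹ * (2 * M + C1) := by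
      refine mul_le_mul_of_nonneg_left ?_ (by positivity)
      have : s * (M + C1) ≤ 1 * (M + C1) := mul_le_mul_of_nonneg_right hs1 (by positivity)
      linarith only [h0, this]
    have b3 : (s * κ + s ^ 2 * r⁻¹) * (f0 + s * (M + C1)) =
      s * (κ * f0) + s ^ 2 * (κ * (M + C1)) + s ^ 2 * r⁻¹ * (f0 + s * (M + C1)) := by ring
    have b4 : s ^ 2 * (M * (M + C1) + r⁻¹ * (2 * M + C1)) = s ^ 2 * (M * (M + C1)) + s ^ 2 * r⁻¹ * (2 * M + C1) := by
      ring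
    rw [b3, b4]
    linarith only [b1, b2]
  obtain ⟨C6, hC6⟩ : ∃ C6, C6 = C1 + M * (M + C1) + r⁻¹ * (2 * M + C1) := ⟨_, rfl⟩
  have hC60 : 0 ≤ C6 := by rw [hC6]; positivity
  rw [← hC6]
  have a4 : x ≤ s * (f1 + κ * f0) + C6 * s ^ 2 := by
    have b1 : s * (f1 + κ * f0) + C6 * s ^ 2 =
        (s * f1 + C1 * s ^ 2) + (s * (κ * f0) + s ^ 2 * (M * (M + C1) + r⁻¹ * (2 * M + C1))) := by
      rw [hC6]; ring
    rw [b1]
    linarith
  have a5 : x * n' ≤ (s * (f1 + κ * f0) + C6 * s ^ 2) * (n + C4 * s) :=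
    mul_le_mul a4 hnn hn' (by positivity)
  have a6 : f1 + κ * f0 ≤ M + M * M := by
    have := mul_le_mul h2 h0 hf0 hM
    linarith only [h1, this]
  have a7 : (s * (f1 + κ * f0) + C6 * s ^ 2) * (n + C4 * s) ≤
      s * (n * (f1 + κ * f0)) + (C6 * M * s ^ 2 + C4 * (M + M * M) * s ^ 2 + C6 * C4 * s ^ 2) := by
    have b1 : C6 * s ^ 2 * n ≤ C6 * s ^ 2 * M := by gcongr
    have b2 : s ^ 2 * C4 * (f1 + κ * f0) ≤ s ^ 2 * C4 * (M + M * M) := by gcongr
    have b3 : C6 * C4 * (s ^ 2 * s) ≤ C6 * C4 * (s ^ 2 * 1) := by gcongr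
    have b4 : (s * (f1 + κ * f0) + C6 * s ^ 2) * (n + C4 * s) = s * (n * (f1 + κ * f0)) +
      (C6 * s ^ 2 * n + s ^ 2 * C4 * (f1 + κ * f0) + C6 * C4 * (s ^ 2 * s)) := by ring
    have b5 : C6 * M * s ^ 2 + C4 * (M + M * M) * s ^ 2 + C6 * C4 * s ^ 2 =
      C6 * s ^ 2 * M + s ^ 2 * C4 * (M + M * M) + C6 * C4 * (s ^ 2 * 1) := by ring
    rw [b4, b5]
    linarith
  have a8 : g * y ≤ g * (s * ν + C4 * s ^ 2) := mul_le_mul_of_nonneg_left hyy hg
  have a9 : g * (C4 * s ^ 2) ≤ M * (C4 * s ^ 2) := mul_le_mul_of_nonneg_right (hgf.trans h0) (by positivity)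
  have b1 : g * (s * ν + C4 * s ^ 2) = s * (g * ν) + g * (C4 * s ^ 2) := by ring
  have b2 : s * (g * ν + n * (f1 + κ * f0)) + (C6 * M + C4 * (M + M * M) + C6 * C4 + C4 * M) * s ^ 2 =
    s * (g * ν) + M * (C4 * s ^ 2) + (s * (n * (f1 + κ * f0)) +
      (C6 * M * s ^ 2 + C4 * (M + M * M) * s ^ 2 + C6 * C4 * s ^ 2)) := by ring
  rw [b2]
  linarith

theorem jbox {r2 : ℝ} (hr : 0 < r2) {F ψ : E3 → ℝ} (hF : Cs F) (hψ : Continuous ψ) (b l : ℝ) (i : Fin 3) (B : ℝ) :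
    ∃ M : ℝ, 0 ≤ M ∧ ∀ q, sq2 q ≤ B → ‖fib F q‖ ≤ M ∧ ‖fib (pd i F) q‖ ≤ M ∧ 2 * |pt q 0 i| / (sq2 q + r2) ≤ M ∧
      Nb b l ψ q ≤ M := by
  have c1 := (fib_cont hF).norm
  have c2 := (fib_cont (hF.pd i)).norm
  have c3 := Nb_cont hψ b l
  have c6 : Continuous fun q : ℝ × ℝ => pt q 0 i :=
    (EuclideanSpace.proj i).continuous.comp (pt_cont' continuous_id continuous_const)
  have c7 : Continuous fun q : ℝ × ℝ => 2 * |pt q 0 i| / (sq2 q + r2) :=
    (continuous_const.mul c6.abs).div (sq2_cont.add continuous_const) fun q => by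
      have := sq2_nn q
      positivity
  obtain ⟨M1, h1⟩ := (sq2_cpt B).exists_bound_of_continuousOn c1.continuousOn
  obtain ⟨M2, h2⟩ := (sq2_cpt B).exists_bound_of_continuousOn c2.continuousOn
  obtain ⟨M3, h3⟩ := (sq2_cpt B).exists_bound_of_continuousOn c3.continuousOn
  obtain ⟨M4, h4⟩ := (sq2_cpt B).exists_bound_of_continuousOn c7.continuousOn
  refine ⟨|M1| + |M2| + |M3| + |M4|, by positivity, fun q hq => ?_⟩
  have k1 := (le_abs_self _).trans (h1 q hq)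
  have k2 := (le_abs_self _).trans (h2 q hq)
  have k3 := (le_abs_self _).trans (h3 q hq)
  have k4 := (le_abs_self _).trans (h4 q hq)
  have p1 := abs_nonneg M1
  have p2 := abs_nonneg M2
  have p3 := abs_nonneg M3
  have p4 := abs_nonneg M4
  have s1 := le_abs_self M1
  have s2 := le_abs_self M2
  have s3 := le_abs_self M3
  have s4 := le_abs_self M4
  refine ⟨k1.trans ?_, k2.trans ?_, k4.trans ?_, k3.trans ?_⟩ <;> linarith only [p1, p2, p3, p4, s1, s2, s3, s4]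

theorem jw {N r2 : ℝ} (F : E3 → ℝ) (q : ℝ × ℝ) : Continuous (wq N r2 F q) := wp_cont _

/-- The pointwise estimate. -/
theorem jpt {N r2 b l : ℝ} (hN : 0 < N) (hr : 0 < r2) (hl : 0 < l) {F θ : E3 → ℝ} (hF : Cs F)
    (hs : ContDiff ℝ ∞ θ) (hb : ∀ x, F x ≠ 0 → |x 2 - b| ≤ l) (s : ℝ) (d q : ℝ × ℝ) :
    |∫ z, (gq N r2 F q z * pd 2 θ (pt q z) - gq N r2 F (q - s • d) z * pd 2 θ (pt (q - s • d) z)) *
      wq N r2 F q z| ≤ ‖gq N r2 F q - gq N r2 F (q - s • d)‖ * Nb b l (pd 2 θ) (q - s • d) +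
      ‖gq N r2 F q‖ * √(∫ z in (b - l)..(b + l), (pd 2 θ (pt q z) - pd 2 θ (pt (q - s • d) z)) ^ 2) := by
  have hab : b - l ≤ b + l := by linarith
  have hψ := pd_sm hs 2
  have hS : ∀ q, Sz (b - l) (b + l) (gq N r2 F q) := fun q =>
    (vq_Sz hN hr hab hF (fun x hx => by
      have := abs_le.1 (hb x hx)
      exact ⟨by linarith, by linarith⟩) q).2.2.1
  have c8 : Continuous (wq N r2 F q) := jw F q
  have h0 := jsplit (p := gq N r2 F q) (p' := gq N r2 F (q - s • d)) (f := fun z => pd 2 θ (pt q z))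
    (f' := fun z => pd 2 θ (pt (q - s • d) z)) hab (hS q) (hS _)
    (jcont hψ.continuous q) (jcont hψ.continuous _) (w := wq N r2 F q) c8 (wq_le hN hr F q)
  unfold Nb
  exact h0

theorem jkey {N r2 b l : ℝ} (hN : 0 < N) (hr : 0 < r2) (hl : 0 < l) {F θ : E3 → ℝ} (hF : Cs F)
    (hs : ContDiff ℝ ∞ θ) (hb : ∀ x, F x ≠ 0 → |x 2 - b| ≤ l) {i : Fin 3} {d : ℝ × ℝ} (h : Dir i d) :
    ∃ B Q : ℝ, 0 ≤ Q ∧ ∀ (s : ℝ) (q : ℝ × ℝ), |s| ≤ 1 →
    |∫ z, (gq N r2 F q z * pd 2 θ (pt q z) - gq N r2 F (q - s • d) z * pd 2 θ (pt (q - s • d) z)) *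
      wq N r2 F q z| ≤ |s| * erx i N r2 b l F θ q + {q : ℝ × ℝ | sq2 q ≤ B}.indicator (fun _ => Q * s ^ 2) q := by
  obtain ⟨A, hA⟩ := fib_out hF
  obtain ⟨B, hB⟩ : ∃ B, B = 2 * |A| + 2 := ⟨_, rfl⟩
  have hψ := pd_sm hs 2
  obtain ⟨C1, hC1, k1⟩ := jfib hF h
  obtain ⟨C4, hC4, k4⟩ := jNb hψ b hl h B
  obtain ⟨M, hM0, hM⟩ := jbox hr hF hψ.continuous b l i B
  obtain ⟨Q, hQ⟩ : ∃ Q, Q = (C1 + M * (M + C1) + r2⁻¹ * (2 * M + C1)) * M +
      C4 * (M + M * M) + (C1 + M * (M + C1) + r2⁻¹ * (2 * M + C1)) * C4 + C4 * M := ⟨_, rfl⟩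
  refine ⟨B, Q, by rw [hQ]; positivity, fun s q hs1 => ?_⟩
  refine (jpt hN hr hl hF hs hb s d q).trans ?_
  by_cases hq : sq2 q ≤ B
  · rw [indicator_of_mem (by exact hq)]
    have n1 := norm_nonneg (fib F q)
    have n2 := norm_nonneg (fib (pd i F) q)
    have n4 : 0 ≤ 2 * |pt q 0 i| / (sq2 q + r2) := by
      have := sq2_nn q
      positivity
    obtain ⟨m1, m2, m3, m4⟩ := hM q hq
    have hd := k1 q s
    have hD : ‖fib F q - fib F (q - s • d)‖ ≤ |s| * ‖fib (pd i F) q‖ + C1 * |s| ^ 2 := by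
      rw [← norm_neg, neg_sub]
      have := norm_sub_le (fib F (q - s • d) - fib F q + s • fib (pd i F) q) (s • fib (pd i F) q)
      rw [add_sub_cancel_right, norm_smul, Real.norm_eq_abs] at this
      rw [sq_abs]
      linarith only [this, hd]
    have hD' : ‖fib F (q - s • d)‖ ≤ ‖fib F q‖ + ‖fib F q - fib F (q - s • d)‖ := by
      have := norm_sub_le (fib F q) (fib F q - fib F (q - s • d))
      rwa [sub_sub_cancel] at this
    have h4 := k4 q s hq hs1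
    have m5 := jratio hN hr h q s
    have m6 := h4.2
    rw [← sq_abs s] at m5 m6
    have := jarith (abs_nonneg s) hs1 hr n1 n2 n4 (norm_nonneg (gq N r2 F q)) hC1 hC4
      (Nb_nn b l (pd 2 θ) (q - s • d)) (norm_nonneg _) m1 m2 m3 m4
      (vq_le hN hr F q).2.1 hD hD' m5 (gq_lip hN hr F q (q - s • d)) h4.1 m6
    rw [sq_abs, ← hQ] at this
    exact this
  · rw [indicator_of_notMem (by exact hq), add_zero]
    have h1 : A ≤ sq2 q := by
      rw [not_le, hB] at hq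
      have := le_abs_self A
      have := abs_nonneg A
      linarith
    have h2 : A ≤ sq2 (q - s • d) := by
      rw [not_le, hB] at hq
      have h3 := le_abs_self A
      have h4 := pt_abs q h
      have h5 : s ^ 2 ≤ 1 := by
        rw [← sq_abs]
        exact pow_le_one₀ (abs_nonneg _) hs1
      rw [sq2_sub h]
      linarith only [sq_nonneg (pt q 0 i - 2 * s), hq, h3, h4, h5]
    have h3 := (vq_out hN hr (hA q h1)).2.1
    have h4 := (vq_out hN hr (hA _ h2)).2.1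
    rw [h3, h4, sub_zero, norm_zero, zero_mul, zero_mul, add_zero]
    exact mul_nonneg (abs_nonneg _) (erx_nn hr F θ i q)

theorem trx_third {N r2 b l : ℝ} (hN : 0 < N) (hr : 0 < r2) (hl : 0 < l) {F θ : E3 → ℝ} (hF : Cs F)
    (hs : ContDiff ℝ ∞ θ) (hb : ∀ x, F x ≠ 0 → |x 2 - b| ≤ l) {i : Fin 3} {d : ℝ × ℝ} (h : Dir i d) :
    ∃ C, 0 ≤ C ∧ ∀ s : ℝ, |s| ≤ 1 →
    |∫ q : ℝ × ℝ, ∫ z, (gq N r2 F q z * pd 2 θ (pt q z) - gq N r2 F (q - s • d) z * pd 2 θ (pt (q - s • d) z)) *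
      wq N r2 F q z| ≤ |s| * (∫ q : ℝ × ℝ, erx i N r2 b l F θ q) + C * s ^ 2 := by
  obtain ⟨B, Q, hQ0, key⟩ := jkey hN hr hl hF hs hb h
  have hfin : volume {q : ℝ × ℝ | sq2 q ≤ B} < ⊤ := (sq2_cpt B).measure_lt_top
  have hmeas : MeasurableSet {q : ℝ × ℝ | sq2 q ≤ B} := (sq2_cpt B).measurableSet
  refine ⟨Q * volume.real {q : ℝ × ℝ | sq2 q ≤ B}, by positivity, fun s hs1 => ?_⟩
  obtain ⟨I, hI⟩ : ∃ I : ℝ × ℝ → ℝ, I = fun q => ∫ z, (gq N r2 F q z * pd 2 θ (pt q z) -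
      gq N r2 F (q - s • d) z * pd 2 θ (pt (q - s • d) z)) * wq N r2 F q z := ⟨_, rfl⟩
  have key' : ∀ q, |I q| ≤ |s| * erx i N r2 b l F θ q + {q : ℝ × ℝ | sq2 q ≤ B}.indicator (fun _ => Q * s ^ 2) q :=
    fun q => by
      rw [hI]
      exact key s q hs1
  rw [← hI]
  have i1 : Integrable (fun q : ℝ × ℝ => |s| * erx i N r2 b l F θ q) := by
    have := erx_cs (b := b) (l := l) hN hr hF hs i
    exact (this.1.integrable_of_hasCompactSupport this.2).const_mul _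
  have i2 : Integrable ({q : ℝ × ℝ | sq2 q ≤ B}.indicator (fun _ => Q * s ^ 2)) := by
    have : IntegrableOn (fun _ : ℝ × ℝ => Q * s ^ 2) {q : ℝ × ℝ | sq2 q ≤ B} :=
      integrableOn_const (ne_of_lt hfin)
    exact this.integrable_indicator hmeas
  calc |∫ q, I q| ≤ ∫ q, |I q| := by
        have := norm_integral_le_integral_norm (μ := (volume : Measure (ℝ × ℝ))) I
        simpa only [Real.norm_eq_abs] using this
    _ ≤ ∫ q, (|s| * erx i N r2 b l F θ q + {q : ℝ × ℝ | sq2 q ≤ B}.indicator (fun _ => Q * s ^ 2) q) :=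
        integral_mono_of_nonneg (ae_of_all _ fun q => abs_nonneg _) (i1.add i2) (ae_of_all _ key')
    _ = |s| * (∫ q : ℝ × ℝ, erx i N r2 b l F θ q) + Q * volume.real {q : ℝ × ℝ | sq2 q ≤ B} * s ^ 2 := by
        rw [integral_add i1 i2, integral_const_mul, integral_indicator hmeas, setIntegral_const, smul_eq_mul]
        ring

end Pool.Agent.H16.TQ
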