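import Pool.Agent.H42.TQ.Defs

/-! Functions of the height as elements of `Hz`. -/

set_option autoImplicit false

open Set Filter Topology MeasureTheory
open scoped ContDiff InnerProductSpace

namespace Pool.Agent.H16.TQ

open Pool.Agent.H16 Pool.Agent.H87.NS Pool.Agent.H72.CC Pool.Agent.H16.TU Pool.Agent.H94.EP Pool.Agent.H42.TQ

open Classical in
/-- The class of `φ`. -/
noncomputable def toH (φ : ℝ → ℝ) : Hz := if h : MemLp φ 2 volume then h.toLp _ else 0

theorem fib_eq (F : E3 → ℝ) (q : ℝ × ℝ) : fib F q = toH (fun z => F (pt q z)) := rfl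

/-- Continuous, zero outside `[-R, R]`. -/
structure Bc (R : ℝ) (φ : ℝ → ℝ) : Prop where
  ct : Continuous φ
  sp : ∀ z, R < |z| → φ z = 0

theorem Bc.mem {R : ℝ} {φ : ℝ → ℝ} (h : Bc R φ) : MemLp φ 2 volume := by
  refine h.ct.memLp_of_hasCompactSupport (HasCompactSupport.intro (K := Icc (-R) R) isCompact_Icc fun z hz => h.sp z ?_)
  by_contra h1
  rw [not_lt, abs_le] at h1
  exact hz h1

theorem toH_of {φ : ℝ → ℝ} (h : MemLp φ 2 volume) : toH φ = h.toLp _ := dif_pos h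

theorem toH_inner {φ ψ : ℝ → ℝ} (h : MemLp φ 2 volume) (h' : MemLp ψ 2 volume) : ⟪toH φ, toH ψ⟫_ℝ = ∫ z, φ z * ψ z := by
  rw [toH_of h, toH_of h', L2.inner_def]
  refine integral_congr_ae ?_
  filter_upwards [h.coeFn_toLp, h'.coeFn_toLp] with z h1 h2
  rw [h1, h2]
  simp [mul_comm]

theorem toH_norm {φ : ℝ → ℝ} (h : MemLp φ 2 volume) : ‖toH φ‖ ^ 2 = ∫ z, φ z ^ 2 := by
  rw [← real_inner_self_eq_norm_sq, toH_inner h h]
  simp only [pow_two]

theorem toH_sub {φ ψ : ℝ → ℝ} (h : MemLp φ 2 volume) (h' : MemLp ψ 2 volume) : toH φ - toH ψ = toH (fun z => φ z - ψ z) := by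
  have hm : MemLp (fun z => φ z - ψ z) 2 volume := h.sub h'
  rw [toH_of h, toH_of h', toH_of hm, ← MemLp.toLp_sub]
  rfl

theorem toH_smul {φ : ℝ → ℝ} (h : MemLp φ 2 volume) (c : ℝ) : c • toH φ = toH (fun z => c * φ z) := by
  have hm : MemLp (fun z => c * φ z) 2 volume := h.const_mul c
  rw [toH_of h, toH_of hm, ← MemLp.toLp_const_smul]
  rfl

theorem toH_zero : toH (fun _ => 0) = 0 := by
  rw [toH_of (MemLp.zero' : MemLp (fun _ : ℝ => (0 : ℝ)) 2 volume)]
  rfl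

variable {ι : Type*} {l : Filter ι} [l.IsCountablyGenerated]

theorem toH_tend {φ : ι → ℝ → ℝ} {φ0 : ℝ → ℝ} {R M : ℝ} (h1 : ∀ᶠ i in l, Bc R (φ i) ∧ ∀ z, |φ i z| ≤ M)
    (h2 : Bc R φ0) (h3 : ∀ z, |φ0 z| ≤ M) (h4 : ∀ z, Tendsto (fun i => φ i z) l (𝓝 (φ0 z))) :
    Tendsto (fun i => toH (φ i)) l (𝓝 (toH φ0)) := by
  rw [tendsto_iff_norm_sub_tendsto_zero]
  have e1 : ∀ᶠ i in l, √(∫ z, (φ i z - φ0 z) ^ 2) = ‖toH (φ i) - toH φ0‖ := by
    filter_upwards [h1] with i hi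
    have hm : MemLp (fun z => φ i z - φ0 z) 2 volume := hi.1.mem.sub h2.mem
    rw [toH_sub hi.1.mem h2.mem, ← toH_norm hm, Real.sqrt_sq (norm_nonneg _)]
  refine Tendsto.congr' e1 ?_
  have e2 : Tendsto (fun i => ∫ z, (φ i z - φ0 z) ^ 2) l (𝓝 (∫ _ : ℝ, (0 : ℝ))) := by
    refine tendsto_integral_filter_of_dominated_convergence ((Icc (-R) R).indicator fun _ => (M + M) ^ 2) ?_ ?_ ?_ ?_
    · filter_upwards [h1] with i hi
      exact ((hi.1.ct.sub h2.ct).pow 2).aestronglyMeasurable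
    · filter_upwards [h1] with i hi
      refine Eventually.of_forall fun z => ?_
      by_cases hz : z ∈ Icc (-R) R
      · rw [indicator_of_mem hz, Real.norm_eq_abs, abs_pow]
        exact pow_le_pow_left₀ (abs_nonneg _) ((abs_sub _ _).trans (add_le_add (hi.2 z) (h3 z))) 2
      · have hz' : R < |z| := by
          by_contra h; rw [not_lt, abs_le] at h; exact hz h
        rw [indicator_of_notMem hz, hi.1.sp z hz', h2.sp z hz']; simp
    · exact (integrable_indicator_iff measurableSet_Icc).2 (integrableOn_const (by simp))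
    · refine Eventually.of_forall fun z => ?_
      have := ((h4 z).sub_const (φ0 z)).pow 2
      simpa using this
  have e3 := (Real.continuous_sqrt.tendsto _).comp e2
  rw [integral_zero, Real.sqrt_zero] at e3
  exact e3

omit [l.IsCountablyGenerated] in
theorem toH_der {φ : ℝ → ℝ → ℝ} {φ' : ℝ → ℝ} {s : Set ℝ} {t0 R M : ℝ} (ht : t0 ∈ s) (h1 : ∀ t ∈ s, Bc R (φ t))
    (hM : ∀ t ∈ s, ∀ z, |φ t z - φ t0 z| ≤ M * |t - t0|) (h2 : Bc R φ') (h3 : ∀ z, |φ' z| ≤ M)
    (h4 : ∀ z, HasDerivWithinAt (fun t => φ t z) (φ' z) s t0) : HasDerivWithinAt (fun t => toH (φ t)) (toH φ') s t0 := by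
  rw [hasDerivWithinAt_iff_tendsto_slope]
  have e1 : ∀ᶠ t in 𝓝[s \ {t0}] t0, toH (fun z => (t - t0)⁻¹ * (φ t z - φ t0 z)) = slope (fun t => toH (φ t)) t0 t := by
    filter_upwards [self_mem_nhdsWithin] with t hts
    have hm : MemLp (fun z => φ t z - φ t0 z) 2 volume := (h1 t hts.1).mem.sub (h1 t0 ht).mem
    rw [slope_def_module, toH_sub (h1 t hts.1).mem (h1 t0 ht).mem, toH_smul hm]
  refine Tendsto.congr' e1 ?_
  refine toH_tend (R := R) (M := M) ?_ h2 h3 fun z => ?_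
  · filter_upwards [self_mem_nhdsWithin] with t hts
    refine ⟨⟨continuous_const.mul ((h1 t hts.1).ct.sub (h1 t0 ht).ct), fun z hz => ?_⟩, fun z => ?_⟩
    · rw [(h1 t hts.1).sp z hz, (h1 t0 ht).sp z hz]; simp
    · have hne : 0 < |t - t0| := abs_pos.2 (sub_ne_zero.2 hts.2)
      rw [abs_mul, abs_inv, inv_mul_le_iff₀ hne]
      linarith [hM t hts.1 z]
  · have := hasDerivWithinAt_iff_tendsto_slope.1 (h4 z)
    refine this.congr fun t => ?_
    rw [slope_def_module]; rfl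

end Pool.Agent.H16.TQ
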